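import Pool.Agent.X227.UP.SlimDefs
import Pool.Agent.X227.NP.FDefs

/-!
# The slim definitions agree with the other ones
-/

open CategoryTheory AlgebraicGeometry

universe u

namespace Pool.Agent.X227.UP

open Pool.Agent.H914 Pool.Agent.H914.VarClass Pool.Agent.H914.VarClass.Obj
  Pool.Agent.H914.WeilCohomology Pool.Agent.Y132.AH Pool.Agent.X227.NP

variable {k : Type u} [Field k] {𝒱 : VarClass k} {ops : CycleOps 𝒱}
  {W : WeilCohomology.{u, 0} ops} {Γ : Type} [Group Γ]

theorem apart_iff (G : GaloisData W Γ) (X Z : 𝒱.Obj) : Apart G X Z ↔ MonApart G X Z := Iff.rfl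

theorem timesE_eq {ι : Type} (X : ι → 𝒱.Obj) {Z : 𝒱.Obj} (e : W.H (Z.prod Z)) (L : List ι) :
    timesE X e L = overOp X e L := rfl

end Pool.Agent.X227.UP
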