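import Pool.Agent.Y132.AH.FDefs

/-!
# Varieties generated by a variety and a family of varieties
-/

open CategoryTheory AlgebraicGeometry

universe u

namespace Pool.Agent.X227.UP

open Pool.Agent.H914 Pool.Agent.Y132.AH

variable {k : Type u} [Field k] {𝒱 : VarClass k}

/-- The varieties isomorphic to a product of at least one copy of `Z` and of copies of the `X i` with
`i` in the set `S`. -/
def generated (Z : 𝒱.Obj) {ι : Type} (X : ι → 𝒱.Obj) (S : Set ι) : Set 𝒱.Obj :=
  {Y | ∃ (n : ℕ) (L : List ι), (∀ i ∈ L, i ∈ S) ∧ Nonempty (Y ≅ prodList X (powN Z n) L)}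

end Pool.Agent.X227.UP
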