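import Pool.Agent.X227.UP.Conj
import Pool.Agent.X227.UP.FDefs
import Pool.Agent.Y132.AH.Full

/-!
# All powers at once: full faithfulness of the Hodge realization
-/

open CategoryTheory AlgebraicGeometry

universe u

namespace Pool.Agent.X227.UP

open Pool.Agent.H914 Pool.Agent.H914.VarClass Pool.Agent.H914.VarClass.Obj
  Pool.Agent.H914.WeilCohomology Pool.Agent.Y132.AH Pool.Agent.X227.MS Pool.Agent.H281R3.HT
  Pool.Agent.W552 Pool.Agent.TH125.Gal Pool.Agent.Y132.AF Pool.Agent.X227.MM Pool.Agent.X227.NP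

variable {k : Type u} [Field k] {𝒱 : VarClass k} {ops : CycleOps 𝒱} {ι : Type}
  {W : WeilCohomology.{u, 0} ops} (Ψ : HodgeData W) (E : Embeddings W)

theorem isPair_abs [IsAlgClosed W.K] :
    IsPair (ofSys (gcls_hodge Ψ).sys) (ofSys (gcls_abs Ψ E).sys) (AllAbsolute Ψ E) :=
  isPair_of (gcls_hodge Ψ) (gcls_abs Ψ E) (fun X => Ψ.coeff X)
    (fun X => (Ψ.isCoeffAct X).smul) (fun _ _ _ hy σ => hy.2 σ) (fun _ _ _ hy σ => hy.1.2 σ)
    (fun Y j => isAbs_zero Ψ E Y j)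

theorem generated_mono {Z : 𝒱.Obj} {X : ι → 𝒱.Obj} {S T : Set ι} (h : S ⊆ T) :
    generated Z X S ⊆ generated Z X T := by
  rintro Y ⟨n, L, hL, e⟩
  exact ⟨n, L, fun i hi => h (hL i hi), e⟩

theorem full_of_abs' {Z : 𝒱.Obj} {X : ι → 𝒱.Obj} {S : Set ι}
    (h : ∀ n (L : List ι), (∀ i ∈ L, i ∈ S) → AllAbsolute Ψ E (prodList X (powN Z n) L)) :
    FullyFaithfulOn Ψ E (generated Z X S) := by
  rintro A ⟨n, L, hL, ⟨e⟩⟩ B ⟨m, L', hL', ⟨e'⟩⟩ a b p q hp hq f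
  refine ⟨fun hf => motivic_of_hodge ?_ hf, hodge_of_motivic hp hq⟩
  obtain ⟨e''⟩ := iso_append X (powN Z n) (powN Z m) L L'
  obtain ⟨i1⟩ := pow_iso' Z n m
  obtain ⟨i2⟩ := list_iso X i1 (L ++ L')
  refine abs_iso Ψ E (prodIso e e' ≪≫ e'' ≪≫ i2).symm (h _ _ fun i hi => ?_)
  rcases List.mem_append.1 hi with hi | hi
  · exact hL i hi
  · exact hL' i hi

/-- **Full faithfulness: only finitely many factors matter.** -/
theorem full_uniform [IsAlgClosed W.K] [DecidableEq ι] {X : ι → 𝒱.Obj} (Z : 𝒱.Obj)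
    (hX : SpFamily Ψ X) :
    ∃ B : Finset ι, ∑ i ∈ B, (trDim W (X i) + 1).choose 2 ≤ totDim W Z ^ 2 ∧
      (∀ i ∈ B, ¬TypeSep Ψ (X i) Z) ∧
      ∀ S : Set ι, FullyFaithfulOn Ψ E (generated Z X S) ↔
        FullyFaithfulOn Ψ E (generated Z X (S ∩ {i | i ∈ B})) := by
  obtain ⟨B, h1, h2, h3⟩ := uni_hodge Ψ Z hX
  refine ⟨B, h1, h2, fun S => ⟨fun h Y hY Y' hY' => ?_, fun h => full_of_abs' Ψ E
    fun n L hL => ?_⟩⟩
  · exact h Y (generated_mono Set.inter_subset_left hY) Y'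
      (generated_mono Set.inter_subset_left hY')
  · have h4 := h3 (isPair_abs Ψ E) fun Y F y hy => hodgeComp_span Ψ hy.1
    rw [h4.small n L]
    intro L' hsub hs
    exact abs_of_full Ψ E h ⟨n, L', fun i hi => ⟨hL i (hsub.subset hi), hs.mem i hi⟩,
      ⟨Iso.refl _⟩⟩

end Pool.Agent.X227.UP
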