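import Pool.Agent.X227.UP.Gen
import Pool.Agent.X227.UP.Full

/-!
# All powers at once: absolute Hodge classes
-/

open CategoryTheory AlgebraicGeometry

universe u

namespace Pool.Agent.X227.UP

open Pool.Agent.H914 Pool.Agent.H914.VarClass Pool.Agent.H914.VarClass.Obj
  Pool.Agent.H914.WeilCohomology Pool.Agent.Y132.AH Pool.Agent.X227.MS Pool.Agent.H281R3.HT
  Pool.Agent.W552 Pool.Agent.TH125.Gal Pool.Agent.Y132.AF Pool.Agent.X227.MM Pool.Agent.X227.NP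

variable {k : Type u} [Field k] {𝒱 : VarClass k} {ops : CycleOps 𝒱} {ι : Type}
  {W : WeilCohomology.{u, 0} ops} (Ψ : HodgeData W) (E : Embeddings W)

theorem abs_gen [IsAlgClosed W.K] [DecidableEq ι] {X : ι → 𝒱.Obj} (Z : 𝒱.Obj)
    (hX : SpFamily Ψ X) :
    ∃ B : Finset ι, GenBound W X Z B ∧ (∀ i ∈ B, ¬TypeSep Ψ (X i) Z) ∧
      (∀ (n : ℕ) (L : List ι), AllAbsolute Ψ E (prodList X (powN Z n) L) ↔
        ∀ L' : List ι, L'.Sublist L → SmallDim W X (powN Z n) B L' →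
          AllAbsolute Ψ E (prodList X (powN Z n) L')) ∧
      ∀ L : List ι, AbsoluteAll Ψ E (prodList X Z L) ↔
        AbsoluteAll Ψ E (prodList X Z (L.filter (· ∈ B))) := by
  obtain ⟨B, h1, h2, h3, -⟩ := gen_hodge Ψ Z hX
  have h4 := h3 (isPair_abs Ψ E) fun Y F y hy => hodgeComp_span Ψ hy.1
  exact ⟨B, h1, h2, h4.small, h4.only⟩

/-- **Motives.** -/
theorem ar_gen [IsAlgClosed W.K] [DecidableEq ι] {X : ι → 𝒱.Obj} (Z : 𝒱.Obj)
    (hX : SpFamily Ψ X) :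
    ∃ B : Finset ι, GenBound W X Z B ∧ (∀ i ∈ B, ¬TypeSep Ψ (X i) Z) ∧
      ∀ (n : ℕ) (e : W.H ((powN Z n).prod (powN Z n))), AHMotive Ψ E (powN Z n) e →
        ∀ L : List ι, AbsOn Ψ E (prodList X (powN Z n) L) (overOp X e L) ↔
          ∀ L' : List ι, L'.Sublist L → SmallDim W X (powN Z n) B L' →
            AbsOn Ψ E (prodList X (powN Z n) L') (overOp X e L') := by
  obtain ⟨B, h1, h2, -, h3⟩ := gen_hodge Ψ Z hX
  refine ⟨B, h1, h2, fun n e he L => ?_⟩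
  have h4 := h3 n (ofSys (gcls_hodge Ψ).sys) (ofSys (gcls_abs Ψ E).sys) (ncOp e) L
    fun Y F y hy => hodgeComp_span Ψ hy.1
  rw [ar_list Ψ E X he, h4]
  exact forall_congr' fun L' => forall_congr' fun _ => forall_congr' fun _ =>
    (ar_list Ψ E X he L').symm

end Pool.Agent.X227.UP
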