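import Pool.Agent.Y132.AH.Crit

/-!
# All powers at once: the algebra
-/

set_option linter.unusedSectionVars false
set_option linter.unusedVariables false

namespace Pool.Agent.X227.UP

open Module Finset Function Pool.Agent.TH118.SG Pool.Agent.Y132.EP Pool.Agent.Y132.AF
  Pool.Agent.Y132.AH

variable {K : Type} [Field K] {I : Type} {T : I → Type} [∀ i, AddCommGroup (T i)]
  [∀ i, Module K (T i)] {E : Type} [Ring E] [Algebra K E] {Γ : Type} [Group Γ]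
  {χ : Γ →* Kˣ} {w : I → ℕ} {B : ∀ i, T i →ₗ[K] T i →ₗ[K] K}
  {ρ : ∀ i, Γ →* (T i →ₗ[K] T i)} {τ : Γ →* (E →ₗ[K] E)} {J : Type} {gr : J → Submodule K E}

/-- The operators which commute with the operators in `𝒞`. -/
def cmt (𝒞 : Set (E →ₗ[K] E)) : Submodule K (E →ₗ[K] E) where
  carrier := {D | ∀ C ∈ 𝒞, ∀ x, D (C x) = C (D x)}
  zero_mem' := fun C _ x => by simp
  add_mem' := fun {D D'} h h' C hC x => by
    rw [LinearMap.add_apply, LinearMap.add_apply, h C hC, h' C hC, map_add]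
  smul_mem' := fun r D h C hC x => by
    rw [LinearMap.smul_apply, LinearMap.smul_apply, h C hC, map_smul]

/-- The compatible triples whose second component is a derivation and commutes with the operators
in `𝒞`. -/
def DC (χ : Γ →* Kˣ) (w : I → ℕ) (B : ∀ i, T i →ₗ[K] T i →ₗ[K] K)
    (ρ : ∀ i, Γ →* (T i →ₗ[K] T i)) (τ : Γ →* (E →ₗ[K] E)) (gr : J → Submodule K E)
    (𝒞 : Set (E →ₗ[K] E)) : Submodule K ((∀ i, T i →ₗ[K] T i) × (E →ₗ[K] E) × K) :=
  DD χ w B ρ τ gr ⊓ (cmt 𝒞).comap (LinearMap.fst K (E →ₗ[K] E) K ∘ₗ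
    LinearMap.snd K (∀ i, T i →ₗ[K] T i) ((E →ₗ[K] E) × K))

theorem mem_DC {𝒞 : Set (E →ₗ[K] E)} {p : (∀ i, T i →ₗ[K] T i) × (E →ₗ[K] E) × K} :
    p ∈ DC χ w B ρ τ gr 𝒞 ↔ p ∈ DD χ w B ρ τ gr ∧ ∀ C ∈ 𝒞, ∀ x, p.2.1 (C x) = C (p.2.1 x) :=
  Iff.rfl

theorem DC_conj (hB : ∀ i g x y, B i (ρ i g x) (ρ i g y) = (χ g : K) ^ w i * B i x y)
    (hτ : ∀ g x y, τ g (x * y) = τ g x * τ g y) (hgr : ∀ g m, ∀ x ∈ gr m, τ g x ∈ gr m)
    {𝒞 : Set (E →ₗ[K] E)} (h𝒞 : ∀ C ∈ 𝒞, ∀ g x, τ g (C x) = C (τ g x))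
    {p : (∀ i, T i →ₗ[K] T i) × (E →ₗ[K] E) × K} (hp : p ∈ DC χ w B ρ τ gr 𝒞) (γ : Γ) :
    ((fun i => cj (ρ i) γ (p.1 i), cj τ γ p.2.1, p.2.2) :
      (∀ i, T i →ₗ[K] T i) × (E →ₗ[K] E) × K) ∈ DC χ w B ρ τ gr 𝒞 := by
  refine mem_DC.2 ⟨DD_conj hB hτ hgr hp.1 γ, fun C hC x => ?_⟩
  change cj τ γ p.2.1 (C x) = C (cj τ γ p.2.1 x)
  rw [cj_apply, cj_apply, h𝒞 C hC, (mem_DC.1 hp).2 C hC, h𝒞 C hC]

theorem exists_restr {P H : Type} [AddCommMonoid P] [Module K P] [AddCommGroup H] [Module K H]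
    (q : P →ₗ[K] (E →ₗ[K] E)) {j : H →ₗ[K] E} (hj : Function.Injective j)
    (hmem : ∀ p x, q p (j x) ∈ LinearMap.range j) :
    ∃ r : P →ₗ[K] (H →ₗ[K] H), ∀ p x, j (r p x) = q p (j x) := by
  choose f hf using hmem
  refine ⟨LinearMap.mk₂ K f (fun p p' x => hj ?_) (fun c p x => hj ?_) (fun p x x' => hj ?_)
    fun c p x => hj ?_, fun p x => hf p x⟩
  · rw [map_add, hf, hf, hf, map_add, LinearMap.add_apply]
  · rw [map_smul, hf, hf, map_smul, LinearMap.smul_apply]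
  · rw [map_add, hf, hf, hf, map_add, map_add]
  · rw [map_smul, hf, hf, map_smul, map_smul]

section

variable [CharZero K] [IsAlgClosed K] [Fintype I] [DecidableEq I]
  [∀ i, FiniteDimensional K (T i)] [FiniteDimensional K E]

/-- The logarithm commutes with the operators which commute with the automorphism. -/
theorem log_cmt (θ : Additive Kˣ →+ K) (F : Γ) {D : E →ₗ[K] E}
    (hD : ∀ β, ∀ x ∈ Module.End.maxGenEigenspace (τ F) β, D x = ext0 θ β • x)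
    {C : E →ₗ[K] E} (hC : ∀ x, τ F (C x) = C (τ F x)) (x : E) : D (C x) = C (D x) := by
  have hx : x ∈ ⨆ μ, Module.End.maxGenEigenspace (τ F) μ := by
    rw [Module.End.iSup_maxGenEigenspace_eq_top (τ F)]
    exact Submodule.mem_top
  refine Submodule.iSup_induction _ (motive := fun x => D (C x) = C (D x)) hx
    (fun μ x hx => ?_) (by rw [map_zero, map_zero, map_zero]) fun x y hx hy => ?_
  · have h1 : C x ∈ Module.End.maxGenEigenspace (τ F) μ := by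
      obtain ⟨n, hn⟩ := mem_gen.1 hx
      refine mem_gen.2 ⟨n, ?_⟩
      have h2 : ∀ (n : ℕ) (x : E), ((τ F - algebraMap K (End K E) μ) ^ n) (C x) =
          C (((τ F - algebraMap K (End K E) μ) ^ n) x) := by
        intro n
        induction n with
        | zero => intro x; rfl
        | succ n ih =>
          intro x
          rw [pow_succ, Module.End.mul_apply, Module.End.mul_apply, LinearMap.sub_apply, hC,
            Module.algebraMap_end_apply, ← map_smul, ← map_sub, ih, LinearMap.sub_apply,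
            Module.algebraMap_end_apply]
      rw [h2, hn, map_zero]
    rw [hD μ x hx, hD μ _ h1, map_smul]
  · rw [map_add, map_add, hx, hy, map_add, map_add]

/-- There is a compatible tuple with nonzero skew component, in any stable space which contains the
logarithms. -/
theorem exists_start (h : AdFam χ w B ρ) (τ : Γ →* (E →ₗ[K] E))
    {P₀ : Submodule K ((∀ i, T i →ₗ[K] T i) × (E →ₗ[K] E) × K)}
    (hst₀ : ∀ p ∈ P₀, ∀ γ : Γ, ((fun i => cj (ρ i) γ (p.1 i), cj τ γ p.2.1, p.2.2) :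
      (∀ i, T i →ₗ[K] T i) × (E →ₗ[K] E) × K) ∈ P₀)
    (hlog : ∀ (F : Γ) (θ : Additive Kˣ →+ K) (Y : ∀ j, T j →ₗ[K] T j) (D : E →ₗ[K] E),
      (∀ j, ∀ β, ∀ x ∈ Module.End.maxGenEigenspace (ρ j F) β, Y j x = ext0 θ β • x) →
      (∀ β, ∀ x ∈ Module.End.maxGenEigenspace (τ F) β, D x = ext0 θ β • x) →
      ((Y, D, ext0 θ (χ F)) : (∀ i, T i →ₗ[K] T i) × (E →ₗ[K] E) × K) ∈ GG χ w B ρ τ →
      ((Y, D, ext0 θ (χ F)) : (∀ i, T i →ₗ[K] T i) × (E →ₗ[K] E) × K) ∈ P₀) (i : I) :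
    ∃ p ∈ P₀, p.2.2 = 0 ∧ p.1 i ≠ 0 := by
  obtain ⟨F, u, v, hu0, hv0, al, be, hu, hv, hab⟩ := h.hyp i
  have hinj : Function.Injective (ρ i F) := fun x y hxy => by
    have h1 := congrArg (ρ i F⁻¹) hxy
    rwa [ginv', ginv'] at h1
  have hal : al ≠ 0 := by
    rintro rfl
    rw [zero_smul] at hu
    exact hu0 (hinj (by rw [hu, map_zero]))
  have hbe : be ≠ 0 := by
    rintro rfl
    rw [zero_smul] at hv
    exact hv0 (hinj (by rw [hv, map_zero]))
  obtain ⟨θ, hθ⟩ := Pool.Agent.TH118.CR.exists_add (Units.mk0 al hal * (Units.mk0 be hbe)⁻¹)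
    (fun k hk h => hab k hk (by
      rw [mul_pow, inv_pow, mul_inv_eq_one] at h
      exact congrArg Units.val h))
  have hθ' : ext0 θ al ≠ ext0 θ be := by
    intro h
    apply hθ
    rw [ofMul_mul, ofMul_inv, map_add, map_neg, ← ext0_ne θ hal, ← ext0_ne θ hbe, h,
      add_neg_cancel]
  choose Y hY using fun j => exists_op (ρ j F) (ext0 θ)
  obtain ⟨D, hD⟩ := exists_op (τ F) (ext0 θ)
  have hp' := log_mem h.form θ F hY hD
  have hp : ((Y, D, ext0 θ (χ F)) : (∀ i, T i →ₗ[K] T i) × (E →ₗ[K] E) × K) ∈ P₀ :=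
    hlog F θ Y D hY hD hp'
  set p : (∀ i, T i →ₗ[K] T i) × (E →ₗ[K] E) × K := (Y, D, ext0 θ (χ F)) with hpdef
  by_contra hcon
  push Not at hcon
  -- the component is invariant
  have h1 : ∀ g, cj (ρ i) g (Y i) = Y i := by
    intro g
    have h2 := Submodule.sub_mem _ (hst₀ _ hp g) hp
    have h3 := hcon _ h2 (by simp [hpdef])
    exact sub_eq_zero.1 h3
  -- subtract a scalar
  set y : K := ext0 θ (χ F) with hy
  have h2 : Y i - ((w i : K) * y / 2) • (LinearMap.id : T i →ₗ[K] T i) ∈ sk (B i) := by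
    intro a b
    have h3 := hp'.1 i a b
    simp only [LinearMap.sub_apply, LinearMap.smul_apply, LinearMap.id_apply, map_sub, map_smul,
      smul_eq_mul]
    linear_combination h3
  have h3 := h.inv i _ h2 (fun g => by
    rw [cj_sub, h1, cj_smul]
    congr 2
    ext x
    rw [cj_apply, LinearMap.id_apply, LinearMap.id_apply, ginv])
  have h4 : ∀ x, Y i x = ((w i : K) * y / 2) • x := by
    intro x
    have h5 := congrArg (fun f => f x) h3
    simp only [LinearMap.sub_apply, LinearMap.smul_apply, LinearMap.id_apply,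
      LinearMap.zero_apply] at h5
    exact sub_eq_zero.1 h5
  apply hθ'
  have hgen : ∀ (w : T i) (α : K), ρ i F w = α • w →
      w ∈ Module.End.maxGenEigenspace (ρ i F) α := by
    intro w α h
    refine mem_gen.2 ⟨1, ?_⟩
    rw [pow_one, LinearMap.sub_apply, h, Module.algebraMap_end_apply, sub_self]
  have h5 := hY i al u (hgen u al hu)
  have h6 := hY i be v (hgen v be hv)
  rw [h4] at h5 h6
  have h7 : ((w i : K) * y / 2) = ext0 θ al := by
    have h8 : ((w i : K) * y / 2 - ext0 θ al) • u = 0 := by rw [sub_smul, h5, sub_self]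
    exact sub_eq_zero.1 ((smul_eq_zero.1 h8).resolve_right hu0)
  have h8 : ((w i : K) * y / 2) = ext0 θ be := by
    have h9 : ((w i : K) * y / 2 - ext0 θ be) • v = 0 := by rw [sub_smul, h6, sub_self]
    exact sub_eq_zero.1 ((smul_eq_zero.1 h9).resolve_right hv0)
  rw [← h7, ← h8]

/-- Every skew operator on `T i` is accompanied by a derivation which commutes with `𝒞`. -/
theorem exists_derC (h : AdFam χ w B ρ) (hτ : ∀ g x y, τ g (x * y) = τ g x * τ g y)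
    (hgr : ∀ g m, ∀ x ∈ gr m, τ g x ∈ gr m) {𝒞 : Set (E →ₗ[K] E)}
    (h𝒞 : ∀ C ∈ 𝒞, ∀ g x, τ g (C x) = C (τ g x)) (i : I) {A : T i →ₗ[K] T i}
    (hA : A ∈ sk (B i)) : ∃ D : E →ₗ[K] E, ((Pi.single i A, D, 0) :
      (∀ i, T i →ₗ[K] T i) × (E →ₗ[K] E) × K) ∈ DC χ w B ρ τ gr 𝒞 :=
  exists_single' h (inf_le_left.trans inf_le_left)
    (fun _ hp γ => DC_conj h.form hτ hgr h𝒞 hp γ) i
    (exists_start h τ (fun _ hp γ => DC_conj h.form hτ hgr h𝒞 hp γ)
      (fun F θ Y D hY hD hG => mem_DC.2 ⟨mem_DD.2 ⟨hG, log_dr hτ hgr θ F hD⟩,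
        fun C hC x => log_cmt θ F hD (h𝒞 C hC F) x⟩) i) hA

/-- A compatible tuple of skew operators with the derivation `0` is zero, if all colours occur. -/
theorem zero_of_occ (h : AdFam χ w B ρ) (halt : ∀ i x, B i x x = 0) {G : ℕ} {g : I → ℕ}
    {b : ∀ i, Lt G → T i} (hb : ∀ i, SBas (B i) (g i) (b i)) {U : Submodule K E}
    (hocc : ∀ i, ∃ (n : ℕ) (c : Fin n → I) (a : ℤ)
      (f : MultilinearMap K (fun s => T (c s)) E), OccA χ B ρ τ U c a f ∧ ∃ s, c s = i)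
    {p : (∀ i, T i →ₗ[K] T i) × (E →ₗ[K] E) × K} (hp : p ∈ GG χ w B ρ τ) (h0 : p.2.2 = 0)
    (hD : p.2.1 = 0) : p.1 = 0 := by
  by_contra hne
  obtain ⟨i, hi⟩ : ∃ i, p.1 i ≠ 0 := by
    by_contra hcon
    push Not at hcon
    exact hne (funext hcon)
  let P₁ : Submodule K ((∀ i, T i →ₗ[K] T i) × (E →ₗ[K] E) × K) := GG χ w B ρ τ ⊓
    LinearMap.ker (LinearMap.fst K (E →ₗ[K] E) K ∘ₗ
      LinearMap.snd K (∀ i, T i →ₗ[K] T i) ((E →ₗ[K] E) × K))
  have hP₁ : ∀ q, q ∈ P₁ ↔ q ∈ GG χ w B ρ τ ∧ q.2.1 = 0 := fun q => Iff.rfl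
  have hZ : ZZ χ w B ρ τ i = sk (B i) := by
    refine le_antisymm inf_le_right fun A hA => mem_ZZ.2 ⟨?_, hA⟩
    obtain ⟨D, hD'⟩ := exists_single' h (P₀ := P₁) inf_le_left (fun q hq γ => (hP₁ _).2
      ⟨GG_conj h.form ((hP₁ q).1 hq).1 γ, by
        change cj τ γ q.2.1 = 0
        rw [((hP₁ q).1 hq).2, cj_zero]⟩) i ⟨p, (hP₁ p).2 ⟨hp, hD⟩, h0, hi⟩ hA
    obtain ⟨h1, h2⟩ := (hP₁ _).1 hD'
    have h3 : D = 0 := h2
    rw [h3] at h1
    exact h1
  obtain ⟨n, c, a, f, hf, s, rfl⟩ := hocc i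
  exact not_occ h halt hb hf s hZ

/-- **The bound for the skew operators.** -/
theorem sum_sk_le (h : AdFam χ w B ρ) (halt : ∀ i x, B i x x = 0)
    (hτ : ∀ g x y, τ g (x * y) = τ g x * τ g y) {G : ℕ} {g : I → ℕ}
    {b : ∀ i, Lt G → T i} (hb : ∀ i, SBas (B i) (g i) (b i)) {U : Submodule K E}
    (hocc : ∀ i, ∃ (n : ℕ) (c : Fin n → I) (a : ℤ)
      (f : MultilinearMap K (fun s => T (c s)) E), OccA χ B ρ τ U c a f ∧ ∃ s, c s = i)
    {𝒞 : Set (E →ₗ[K] E)} (h𝒞 : ∀ C ∈ 𝒞, ∀ g x, τ g (C x) = C (τ g x))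
    {H : Type} [AddCommGroup H] [Module K H] [FiniteDimensional K H] {j : H →ₗ[K] E}
    (hj : Function.Injective j) (hst : ∀ g x, ∃ y, τ g (j x) = j y)
    (hgen : ∀ D : E →ₗ[K] E, (∀ x y, D (x * y) = D x * y + x * D y) →
      (∀ C ∈ 𝒞, ∀ x, D (C x) = C (D x)) → (∀ x, D (j x) = 0) → D = 0) :
    ∑ i, finrank K (sk (B i)) ≤ finrank K H ^ 2 := by
  classical
  set gr : Unit → Submodule K E := fun _ => LinearMap.range j with hgrdef
  have hgr : ∀ g m, ∀ x ∈ gr m, τ g x ∈ gr m := by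
    rintro g m x ⟨y, rfl⟩
    obtain ⟨z, hz⟩ := hst g y
    exact ⟨z, hz.symm⟩
  let P : Submodule K ((∀ i, T i →ₗ[K] T i) × (E →ₗ[K] E) × K) := PS (DC χ w B ρ τ gr 𝒞) Set.univ
  have hP : ∀ p, p ∈ P → p ∈ DC χ w B ρ τ gr 𝒞 ∧ p.2.2 = 0 := fun p hp => ⟨hp.1, hp.2.1⟩
  -- the projection to the skew operators
  let α : P →ₗ[K] (∀ i, sk (B i)) :=
    { toFun := fun p i => ⟨p.1.1 i, skew_of_GG (hP p.1 p.2).1.1.1 (hP p.1 p.2).2 i⟩
      map_add' := fun p q => rfl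
      map_smul' := fun r p => rfl }
  have hα : Function.Surjective α := by
    intro A
    choose D hD using fun i => exists_derC h hτ hgr h𝒞 i (A i).2
    refine ⟨⟨∑ i, (Pi.single i (A i : T i →ₗ[K] T i), D i, 0), Submodule.sum_mem _ fun i _ =>
      ⟨hD i, rfl, fun j hj => absurd (Set.mem_univ j) hj⟩⟩, ?_⟩
    refine funext fun i => Subtype.ext ?_
    change (∑ i, ((Pi.single i (A i : T i →ₗ[K] T i), D i, 0) :
      (∀ i, T i →ₗ[K] T i) × (E →ₗ[K] E) × K)).1 i = _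
    rw [Prod.fst_sum]
    change (∑ j, (Pi.single j (A j : T j →ₗ[K] T j) : ∀ i, T i →ₗ[K] T i)) i = _
    rw [Finset.univ_sum_single (fun j => (A j : T j →ₗ[K] T j))]
  -- the restriction of the derivations
  obtain ⟨r, hr⟩ := exists_restr (P := P) ((LinearMap.fst K (E →ₗ[K] E) K ∘ₗ
    LinearMap.snd K (∀ i, T i →ₗ[K] T i) ((E →ₗ[K] E) × K)) ∘ₗ P.subtype) hj
    fun p x => (hP p.1 p.2).1.1.2.2 () (j x) ⟨x, rfl⟩
  have hr : ∀ (p : P) (x : H), j (r p x) = p.1.2.1 (j x) := hr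
  have hinj : Function.Injective r := by
    intro p q hpq
    rw [← sub_eq_zero]
    have h1 : ∀ x, (p - q).1.2.1 (j x) = 0 := fun x => by
      change p.1.2.1 (j x) - q.1.2.1 (j x) = 0
      rw [← hr p x, ← hr q x, hpq, sub_self]
    generalize p - q = p at h1
    have h2 : p.1.2.1 = 0 := hgen _ (hP p.1 p.2).1.1.2.1 (hP p.1 p.2).1.2 h1
    have h3 : p.1.1 = 0 := zero_of_occ h halt hb hocc (hP p.1 p.2).1.1.1 (hP p.1 p.2).2 h2
    exact Subtype.ext (Prod.ext h3 (Prod.ext h2 (hP p.1 p.2).2))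
  have h1 : finrank K (∀ i, sk (B i)) ≤ finrank K P := LinearMap.finrank_le_finrank_of_surjective hα
  have h2 : finrank K P ≤ finrank K (H →ₗ[K] H) := LinearMap.finrank_le_finrank_of_injective hinj
  rw [Module.finrank_pi_fintype] at h1
  rw [Module.finrank_linearMap, ← sq] at h2
  exact h1.trans h2

end

end Pool.Agent.X227.UP
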