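import Pool.Agent.X227.UP.Geo
import Pool.Agent.X227.NP.Fam

/-!
# All powers at once: Galois actions and Hodge structures
-/

open CategoryTheory AlgebraicGeometry Finset Function

universe u v w

namespace Pool.Agent.X227.UP

open Pool.Agent.H914 Pool.Agent.H914.VarClass Pool.Agent.H914.VarClass.Obj
  Pool.Agent.H914.WeilCohomology Pool.Agent.H281R3.HT Pool.Agent.W552 Pool.Agent.TH125.Gal
  Pool.Agent.Y132.AF Pool.Agent.Y132.AH Pool.Agent.X227.DN Pool.Agent.X227.MM Pool.Agent.X227.MS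
  Pool.Agent.X227.NP

variable {k : Type u} [Field k] {𝒱 : VarClass k} {ops : CycleOps 𝒱}
  {W : WeilCohomology.{u, 0} ops} {Γ : Type} [Group Γ] {ι : Type}

theorem natAct_hodge (Ψ : HodgeData W) : NatAct (fun Y => ract Ψ Y) where
  map f g b := hact_map Ψ f g b
  deg Y := gradedVar Ψ Y

theorem natAct_gal (G : GaloisData W Γ) : NatAct (fun Y => G.act Y) where
  map f g b := G.map f g b
  deg Y := (G.galois Y).gr_mem

/-- **All powers, Hodge structures.** -/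
theorem hodge_all [IsAlgClosed W.K] [DecidableEq ι] (Ψ : HodgeData W) {X : ι → 𝒱.Obj}
    (Z : 𝒱.Obj) (hX : SpFamily Ψ X) :
    ∃ B : Finset ι, ∑ i ∈ B, (trDim W (X i) + 1).choose 2 ≤ totDim W Z ^ 2 ∧
      (∀ i ∈ B, ¬TypeSep Ψ (X i) Z) ∧
      ∀ (n : ℕ) (ℳ 𝒩 : ESys W) (E : W.H (powN Z n) →ₗ[W.K] W.H (powN Z n)) (L : List ι),
        (∀ (Y : 𝒱.Obj) (E : W.H Y →ₗ[W.K] W.H Y), ∀ y ∈ ℳ.S Y E, HodgeComp Ψ Y y) →
        (Sub ℳ 𝒩 (prodList X (powN Z n) L) (listOp X E L) ↔ ∀ L' : List ι, L'.Sublist L →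
          SmallHodge Ψ X (powN Z n) B L' →
            Sub ℳ 𝒩 (prodList X (powN Z n) L') (listOp X E L')) := by
  obtain ⟨B, h1, h2, h3⟩ := sys_all (natAct_hodge Ψ) (X := X) (Z := Z) (adFamily Ψ hX)
    (fun n L Y hY => by
      have h4 := isTower_eq Ψ hY
      rw [h4])
  refine ⟨B, h1, fun i hi h => ?_, fun n ℳ 𝒩 E L hℳ => ?_⟩
  · obtain ⟨n, hn⟩ := h2 i hi
    exact not_typeSep Ψ hX hn (typeSep_pow Ψ h n)
  · have h4 := h3 n ℳ 𝒩 E L fun Y E y hy => tateComp_of Ψ (hℳ Y E y hy)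
    refine ⟨fun h L' hsub hsmall => ?_, fun h => h4.2 fun L' hsub hsmall =>
      h L' hsub (smallHodge Ψ hX hsmall)⟩
    have hone : ∀ i, (1 : W.H (X i)) ≠ 0 := by
      intro i h0
      obtain ⟨F, x, hx, y, hy, hx0, -⟩ := ((adFamily Ψ hX).var i).act.hyperbolic
      apply hx0
      rw [← one_mul x]
      change (1 : W.H (X i)) * x = 0
      rw [h0, zero_mul]
    exact sys_sublist (fun i => (hX.var i).homEqNum) hone hsub h

/-- **All powers, Galois actions.** -/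
theorem gal_all [IsAlgClosed W.K] [DecidableEq ι] (G : GaloisData W Γ) {X : ι → 𝒱.Obj}
    (Z : 𝒱.Obj) (hX : AdFamily G.χ fun i => G.var (X i)) :
    ∃ B : Finset ι, ∑ i ∈ B, (trDim W (X i) + 1).choose 2 ≤ totDim W Z ^ 2 ∧
      (∀ i ∈ B, ¬MonApart G (X i) Z) ∧ (∀ i ∈ B, ¬SlopeSep G (X i) Z) ∧
      ∀ (n : ℕ) (ℳ 𝒩 : ESys W) (E : W.H (powN Z n) →ₗ[W.K] W.H (powN Z n)) (L : List ι),
        (∀ (Y : 𝒱.Obj) (E : W.H Y →ₗ[W.K] W.H Y), ∀ y ∈ ℳ.S Y E, TateComp G.χ (G.var Y) y) →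
        (Sub ℳ 𝒩 (prodList X (powN Z n) L) (listOp X E L) ↔ ∀ L' : List ι, L'.Sublist L →
          SmallList G.χ (fun i => G.var (X i)) (G.var (powN Z n)) B L' →
            Sub ℳ 𝒩 (prodList X (powN Z n) L') (listOp X E L')) := by
  obtain ⟨B, h1, h2, h3⟩ := sys_all (natAct_gal G) (X := X) (Z := Z) hX
    (fun n L Y hY => by
      have h4 := var_tower_eq G hY
      rw [h4])
  refine ⟨B, h1, fun i hi h => ?_, fun i hi h => ?_, h3⟩
  · obtain ⟨n, hn⟩ := h2 i hi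
    exact not_stable G (mon_pow G h n) hn
  · obtain ⟨n, hn⟩ := h2 i hi
    exact not_stableBound G (slopeSep_pow G h n) hn

/-- The list repeated `n + 1` times. -/
def rep (L : List ι) : ℕ → List ι
  | 0 => L
  | n + 1 => L ++ rep L n

theorem rep_filter (L : List ι) (p : ι → Bool) (n : ℕ) : (rep L n).filter p = rep (L.filter p) n := by
  induction n with
  | zero => rfl
  | succ n ih => rw [rep, List.filter_append, ih, rep]

theorem iso_rep (X : ι → 𝒱.Obj) (Z : 𝒱.Obj) (L : List ι) (n : ℕ) :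
    Nonempty (powN (prodList X Z L) n ≅ prodList X (powN Z n) (rep L n)) := by
  induction n with
  | zero => exact ⟨Iso.refl _⟩
  | succ n ih =>
    obtain ⟨e⟩ := ih
    obtain ⟨e'⟩ := iso_append X Z (powN Z n) L (rep L n)
    exact ⟨prodIso (Iso.refl _) e ≪≫ e'⟩

/-- **Only the factors in `B` matter**, for a conjecture for all powers. -/
theorem all_iff [DecidableEq ι] {Conj : 𝒱.Obj → Prop}
    (hiso : ∀ {A B : 𝒱.Obj}, (A ≅ B) → Conj A → Conj B) {X : ι → 𝒱.Obj} {Z : 𝒱.Obj} {B : Finset ι}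
    (hsub : ∀ n (L L' : List ι), L'.Sublist L → Conj (prodList X (powN Z n) L) →
      Conj (prodList X (powN Z n) L'))
    (hred : ∀ n (L : List ι), (∀ L', L'.Sublist L → (∀ i ∈ L', i ∈ B) →
      Conj (prodList X (powN Z n) L')) → Conj (prodList X (powN Z n) L)) (L : List ι) :
    (∀ n, Conj (powN (prodList X Z L) n)) ↔
      ∀ n, Conj (powN (prodList X Z (L.filter (· ∈ B))) n) := by
  refine forall_congr' fun n => ?_
  obtain ⟨e⟩ := iso_rep X Z L n
  obtain ⟨e'⟩ := iso_rep X Z (L.filter (· ∈ B)) n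
  rw [← rep_filter] at e'
  constructor
  · exact fun h => hiso e'.symm (hsub n _ _ List.filter_sublist (hiso e h))
  · intro h
    refine hiso e.symm (hred n _ fun L' hL' hB => hsub n _ _ ?_ (hiso e' h))
    have h1 := hL'.filter (· ∈ B)
    rwa [List.filter_eq_self.2 fun i hi => decide_eq_true (hB i hi)] at h1

end Pool.Agent.X227.UP
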