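import Pool.Agent.X227.UP.App
import Pool.Agent.X227.NP.AbsRel

/-!
# All powers at once: conjectures given by a pair of systems of classes
-/

open CategoryTheory AlgebraicGeometry

universe u

namespace Pool.Agent.X227.UP

open Pool.Agent.H914 Pool.Agent.H914.VarClass Pool.Agent.H914.VarClass.Obj
  Pool.Agent.H914.WeilCohomology Pool.Agent.Y132.AH Pool.Agent.X227.MS Pool.Agent.H281R3.HT
  Pool.Agent.W552 Pool.Agent.TH125.Gal Pool.Agent.Y132.AF Pool.Agent.X227.MM Pool.Agent.X227.NP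

variable {k : Type u} [Field k] {𝒱 : VarClass k} {ops : CycleOps 𝒱} {ι : Type}
  {W : WeilCohomology.{u, 0} ops} {Γ : Type} [Group Γ]

theorem pow_iso' (Z : 𝒱.Obj) (n m : ℕ) :
    Nonempty ((powN Z n).prod (powN Z m) ≅ powN Z (n + m + 1)) := by
  induction n with
  | zero =>
    rw [Nat.zero_add]
    exact ⟨Iso.refl _⟩
  | succ n ih =>
    obtain ⟨e⟩ := ih
    have h1 : n + 1 + m + 1 = (n + m + 1) + 1 := by omega
    rw [h1]
    exact ⟨assocIso Z (powN Z n) (powN Z m) ≪≫ prodIso (Iso.refl _) e⟩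

theorem list_iso (X : ι → 𝒱.Obj) {A B : 𝒱.Obj} (e : A ≅ B) (L : List ι) :
    Nonempty (prodList X A L ≅ prodList X B L) := by
  induction L with
  | nil => exact ⟨e⟩
  | cons i L ih =>
    obtain ⟨e'⟩ := ih
    exact ⟨prodIso (Iso.refl (X i)) e'⟩

/-- The conjecture `Conj` says that the classes in `ℳ` are in `𝒩`. -/
structure IsPair (ℳ 𝒩 : ESys W) (Conj : 𝒱.Obj → Prop) : Prop where
  iff : ∀ Y, Conj Y ↔ Sub ℳ 𝒩 Y LinearMap.id
  iso : ∀ {A B : 𝒱.Obj}, (A ≅ B) → Conj A → Conj B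

/-- The set `B` controls the conjecture `Conj` for all products of powers of `Z` and of the `X i`. -/
structure Controls (W : WeilCohomology.{u, 0} ops) [DecidableEq ι] (X : ι → 𝒱.Obj) (Z : 𝒱.Obj)
    (B : Finset ι) (Conj : 𝒱.Obj → Prop) : Prop where
  small : ∀ (n : ℕ) (L : List ι), Conj (prodList X (powN Z n) L) ↔
    ∀ L' : List ι, L'.Sublist L → SmallDim W X (powN Z n) B L' →
      Conj (prodList X (powN Z n) L')
  only : ∀ L : List ι, (∀ n, Conj (powN (prodList X Z L) n)) ↔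
    ∀ n, Conj (powN (prodList X Z (L.filter (· ∈ B))) n)

theorem IsPair.controls [DecidableEq ι] {ℳ 𝒩 : ESys W} {Conj : 𝒱.Obj → Prop}
    (h : IsPair ℳ 𝒩 Conj) {X : ι → 𝒱.Obj} {Z : 𝒱.Obj} {B : Finset ι}
    (hX : ∀ i, HomEqNum W (X i)) (hone : ∀ i, (1 : W.H (X i)) ≠ 0)
    (hred : ∀ (n : ℕ) (L : List ι), (∀ L' : List ι, L'.Sublist L →
      SmallDim W X (powN Z n) B L' → Sub ℳ 𝒩 (prodList X (powN Z n) L') LinearMap.id) →
      Sub ℳ 𝒩 (prodList X (powN Z n) L) LinearMap.id) : Controls W X Z B Conj := by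
  have hsub : ∀ n (L L' : List ι), L'.Sublist L → Conj (prodList X (powN Z n) L) →
      Conj (prodList X (powN Z n) L') := by
    intro n L L' hL hc
    rw [h.iff] at hc ⊢
    have h1 := sys_sublist (ℳ := ℳ) (𝒩 := 𝒩)
      (E := (LinearMap.id : W.H (powN Z n) →ₗ[W.K] W.H (powN Z n))) hX hone hL
    rw [listOp_id, listOp_id] at h1
    exact h1 hc
  have hred' : ∀ (n : ℕ) (L : List ι), (∀ L' : List ι, L'.Sublist L →
      SmallDim W X (powN Z n) B L' → Conj (prodList X (powN Z n) L')) →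
      Conj (prodList X (powN Z n) L) := by
    intro n L hL
    rw [h.iff]
    exact hred n L fun L' h1 h2 => (h.iff _).1 (hL L' h1 h2)
  refine ⟨fun n L => ⟨fun hL L' h1 _ => hsub n L L' h1 hL, hred' n L⟩, fun L => ?_⟩
  exact all_iff h.iso hsub (fun n L hL => hred' n L fun L' h1 h2 => hL L' h1 h2.mem) L

/-- **All powers at once, Hodge structures.** -/
theorem uni_hodge [IsAlgClosed W.K] [DecidableEq ι] (Ψ : HodgeData W) {X : ι → 𝒱.Obj}
    (Z : 𝒱.Obj) (hX : SpFamily Ψ X) :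
    ∃ B : Finset ι, ∑ i ∈ B, (trDim W (X i) + 1).choose 2 ≤ totDim W Z ^ 2 ∧
      (∀ i ∈ B, ¬TypeSep Ψ (X i) Z) ∧
      ∀ {ℳ 𝒩 : ESys W} {Conj : 𝒱.Obj → Prop}, IsPair ℳ 𝒩 Conj →
        (∀ (Y : 𝒱.Obj) (E : W.H Y →ₗ[W.K] W.H Y), ∀ y ∈ ℳ.S Y E, HodgeComp Ψ Y y) →
          Controls W X Z B Conj := by
  obtain ⟨B, h1, h2, h3⟩ := hodge_all Ψ Z hX
  refine ⟨B, h1, h2, fun {ℳ 𝒩 Conj} h hc => h.controls (fun i => (hX.var i).homEqNum)
    (sp_one hX) fun n L hL => ?_⟩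
  have h4 := h3 n ℳ 𝒩 LinearMap.id L hc
  simp only [listOp_id] at h4
  exact h4.2 fun L' ha hb => hL L' ha (small_hodge Ψ hb)

/-- **All powers at once, Galois actions.** -/
theorem uni_gal [IsAlgClosed W.K] [DecidableEq ι] (G : GaloisData W Γ) {X : ι → 𝒱.Obj}
    (Z : 𝒱.Obj) (hX : AdFamily G.χ fun i => G.var (X i)) :
    ∃ B : Finset ι, ∑ i ∈ B, (trDim W (X i) + 1).choose 2 ≤ totDim W Z ^ 2 ∧
      (∀ i ∈ B, ¬MonApart G (X i) Z) ∧ (∀ i ∈ B, ¬SlopeSep G (X i) Z) ∧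
      ∀ {ℳ 𝒩 : ESys W} {Conj : 𝒱.Obj → Prop}, IsPair ℳ 𝒩 Conj →
        (∀ (Y : 𝒱.Obj) (E : W.H Y →ₗ[W.K] W.H Y), ∀ y ∈ ℳ.S Y E, TateComp G.χ (G.var Y) y) →
          Controls W X Z B Conj := by
  obtain ⟨B, h1, h2, h2', h3⟩ := gal_all G Z hX
  refine ⟨B, h1, h2, h2', fun {ℳ 𝒩 Conj} h hc => h.controls
    (fun i => ((hX.var i).homEqNum)) (fun i h0 => ?_) fun n L hL => ?_⟩
  · obtain ⟨F, x, hx, y, hy, hx0, -⟩ := (hX.var i).act.hyperbolic
    apply hx0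
    rw [← one_mul x]
    change (1 : W.H (X i)) * x = 0
    rw [h0, zero_mul]
  have h4 := h3 n ℳ 𝒩 LinearMap.id L hc
  simp only [listOp_id] at h4
  exact h4.2 fun L' ha hb => hL L' ha (small_list G hb)

/-- Conjectures which say that the classes of one kind are classes of another kind. -/
theorem isPair_of [IsAlgClosed W.K] {P Q : ∀ X : 𝒱.Obj, ℕ → W.H X → Prop} (hP : GCls P)
    (hQ : GCls Q) (γ : ∀ X : 𝒱.Obj, RingAut W.K →* RingAut (W.H X))
    (hγ : ∀ X σ (r : W.K) (a : W.H X), γ X σ (r • a) = σ r • γ X σ a)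
    (hr : ∀ Y j y, P Y j y → ∀ σ, γ Y σ y = y)
    (hr' : ∀ Y j y, Q Y j y → ∀ σ, γ Y σ y = y) (h0 : ∀ Y j, Q Y j 0) :
    IsPair (ofSys hP.sys) (ofSys hQ.sys) fun Y => ∀ j c, P Y j c → Q Y j c where
  iff Y := by
    rw [← grad_iff hP hQ γ hγ hr hr' h0 (E := LinearMap.id) (fun j c h => h) fun y => rfl]
    exact forall_congr' fun j => forall_congr' fun c => forall_congr' fun _ =>
      ⟨fun h _ => h, fun h => h rfl⟩
  iso {A B} e h j c hc := by
    have h1 := hQ.map e.inv _ _ (h j _ (hP.map e.hom _ _ hc))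
    rwa [← W.map_comp, e.inv_hom_id, W.map_id] at h1

end Pool.Agent.X227.UP
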