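import Pool.Agent.X227.UP.SysDefs

/-!
# De Rham-Betti classes: definitions
-/

open CategoryTheory AlgebraicGeometry

universe u

namespace Pool.Agent.X227.UP

open Pool.Agent.H914 Pool.Agent.H914.VarClass Pool.Agent.H914.VarClass.Obj
  Pool.Agent.H914.WeilCohomology Pool.Agent.Y132.AH

section Alg

variable {K A B Γ : Type} [Field K] [Ring A] [Algebra K A] [Ring B] [Algebra K B] [Group Γ]

/-- The sets `P j` of elements of degree `2 j` contain the sets `Z j`, are closed under sums, rational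
multiples and products, and the group acts on the elements of `P j` by `χ ^ j`. -/
structure IsInvSys {χ : Γ →* Kˣ} {gr : ℕ → Submodule K A} {n : ℕ} {tr : A →ₗ[K] K} {Z : ℕ → Set A}
    (G : GalAlg Γ χ gr n tr Z) (P : ℕ → Set A) : Prop where
  cyc : ∀ j, Z j ⊆ P j
  deg : ∀ j, P j ⊆ gr (2 * j)
  fix : ∀ j, ∀ a ∈ P j, ∀ g, G.act g a = (χ g : K) ^ j • a
  add : ∀ j, ∀ a ∈ P j, ∀ b ∈ P j, a + b ∈ P j
  smul : ∀ (q : ℚ) j, ∀ a ∈ P j, (q : K) • a ∈ P j
  mul : ∀ i j, ∀ a ∈ P i, ∀ b ∈ P j, a * b ∈ P (i + j)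

/-- `f` maps `P j` to `P' j`, and `g` maps `P' j` to `P l` if `l + n' = j + n`. -/
def PullPush (P : ℕ → Set A) (P' : ℕ → Set B) (n n' : ℕ) (f : A →ₐ[K] B) (g : B →ₗ[K] A) : Prop :=
  (∀ j, ∀ a ∈ P j, f a ∈ P' j) ∧ ∀ j l, l + n' = j + n → ∀ b ∈ P' j, g b ∈ P l

end Alg

variable {k : Type u} [Field k] {𝒱 : VarClass k} {ops : CycleOps 𝒱}
  {W : WeilCohomology.{u, 0} ops} {Γ : Type} [Group Γ]

/-- Systems of classes which are invariant under the group (up to the Tate twist), contain the classes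
of cycles, and are closed under sums, rational multiples, products, pull-backs and push-forwards,
such as the de Rham-Betti classes. -/
structure InvClasses (G : GaloisData W Γ) where
  /-- the classes of degree `2 j` -/
  cls : ∀ X : 𝒱.Obj, ℕ → Set (W.H X)
  isInv : ∀ X, IsInvSys (G.on X) (cls X)
  pullPush : ∀ {X Y : 𝒱.Obj} (f : X ⟶ Y), PullPush (cls Y) (cls X) Y.dim X.dim
    (W.map f) (W.push f)

/-- All classes of the system `D` on `Y` are in `C`. -/
def AllClsIn {G : GaloisData W Γ} (D : InvClasses G) (C : Fam W) (Y : 𝒱.Obj) : Prop :=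
  ∀ j, ∀ c ∈ D.cls Y j, c ∈ C Y

/-- All classes of the system `D` on all powers of `Y` are in `C`. -/
def AllPowersIn {G : GaloisData W Γ} (D : InvClasses G) (C : Fam W) (Y : 𝒱.Obj) : Prop :=
  ∀ n, AllClsIn D C (powN Y n)

end Pool.Agent.X227.UP
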