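import Pool.Agent.X227.UP.Sys2
import Pool.Agent.X227.UP.DRBDefs

/-!
# All powers at once: de Rham-Betti classes
-/

open CategoryTheory AlgebraicGeometry

universe u

namespace Pool.Agent.X227.UP

open Pool.Agent.H914 Pool.Agent.H914.VarClass Pool.Agent.H914.VarClass.Obj
  Pool.Agent.H914.WeilCohomology Pool.Agent.Y132.AH Pool.Agent.X227.MS Pool.Agent.H281R3.HT
  Pool.Agent.W552 Pool.Agent.TH125.Gal Pool.Agent.Y132.AF Pool.Agent.X227.MM Pool.Agent.X227.NP

variable {k : Type u} [Field k] {𝒱 : VarClass k} {ops : CycleOps 𝒱} {ι : Type}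
  {W : WeilCohomology.{u, 0} ops} {Γ : Type} [Group Γ]

theorem gcls_inv {G : GaloisData W Γ} (D : InvClasses G) :
    GCls (W := W) (fun X j c => c ∈ D.cls X j) where
  cyc X j z hz := (D.isInv X).cyc j ⟨z, hz, rfl⟩
  add X j a b ha hb := (D.isInv X).add j a ha b hb
  smul X j a q ha := (D.isInv X).smul q j a ha
  mul X i j a b ha hb := (D.isInv X).mul i j a ha b hb
  map f j b hb := (D.pullPush f).1 j b hb
  push f j l a hl ha := (D.pullPush f).2 j l hl a ha
  gr X j a ha := (D.isInv X).deg j ha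

theorem isPair_inv {G : GaloisData W Γ} (D : InvClasses G) {C : Fam W} (hC : IsSys C) :
    IsPair (ofSys (gcls_inv D).sys) (ofSys (toSys hC)) (AllClsIn D C) :=
  isPair_lin (gcls_inv D) (toSys hC)

theorem drb_gen [IsAlgClosed W.K] [DecidableEq ι] (G : GaloisData W Γ)
    {X : ι → 𝒱.Obj} (Z : 𝒱.Obj) (hX : ∀ i, OddMiddle W (X i)) (hG : BigFamily G X) :
    ∃ B : Finset ι, GenBound W X Z B ∧ (∀ i ∈ B, ¬GalSep G (X i) Z) ∧
      ∀ (D : InvClasses G) (C : Fam W), IsSys C →
        (∀ (n : ℕ) (L : List ι), AllClsIn D C (prodList X (powN Z n) L) ↔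
          ∀ L' : List ι, L'.Sublist L → SmallDim W X (powN Z n) B L' →
            AllClsIn D C (prodList X (powN Z n) L')) ∧
        ∀ L : List ι, AllPowersIn D C (prodList X Z L) ↔
          AllPowersIn D C (prodList X Z (L.filter (· ∈ B))) := by
  obtain ⟨B, h1, h2, -, h3, -⟩ := gen_gal G Z (bigFamily_ad G hX hG)
  refine ⟨B, h1, h2, fun D C hC => ?_⟩
  have h4 := h3 (isPair_inv D hC) fun Y E y hy => tateComp_tate G (by
      have h5 := hy.1
      rw [GCls.sys_C] at h5
      exact Submodule.span_mono (fun c hc => by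
        obtain ⟨j, hj⟩ := hc
        exact ⟨j, (D.isInv Y).deg j hj, ⊤, inferInstance, fun g _ => (D.isInv Y).fix j c hj g⟩) h5)
  exact ⟨h4.small, h4.only⟩

end Pool.Agent.X227.UP
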