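import Pool.Agent.Y132.AH.GDefs

/-!
# Generators of the cohomology: definition
-/

open CategoryTheory AlgebraicGeometry

universe u

namespace Pool.Agent.X227.UP

/-- The algebra `A` is generated by its elements whose degrees are in the set `S`. -/
def GenDeg {K A : Type} [Field K] [Ring A] [Algebra K A] (gr : ℕ → Submodule K A)
    (S : Finset ℕ) : Prop :=
  Algebra.adjoin K {x | ∃ m ∈ S, x ∈ gr m} = ⊤

open Pool.Agent.H914 Pool.Agent.Y132.AH

variable {k : Type u} [Field k] {𝒱 : VarClass k} {ops : CycleOps 𝒱}

/-- The cohomology algebra of `Z` is generated by the classes whose degrees are in the set `S`. -/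
def GenIn (W : WeilCohomology.{u, 0} ops) (Z : 𝒱.Obj) (S : Finset ℕ) : Prop :=
  GenDeg (W.gr Z) S

/-- The sum of the numbers `(dim T i) (dim T i + 1) / 2` (the dimensions of the Lie algebras `sp(T i)`)
over the indices in `B` is at most the square of the sum of the Betti numbers of `Z` in the degrees in
`S`, for all sets `S` such that the cohomology algebra of `Z` is generated by the classes with
degrees in `S`. -/
def GenBound (W : WeilCohomology.{u, 0} ops) {ι : Type} (X : ι → 𝒱.Obj) (Z : 𝒱.Obj)
    (B : Finset ι) : Prop :=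
  ∀ S, GenIn W Z S → ∑ i ∈ B, (trDim W (X i) + 1).choose 2 ≤ (∑ m ∈ S, betti W Z m) ^ 2

end Pool.Agent.X227.UP
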