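import Pool.Agent.X227.NP.MTDefs
import Pool.Agent.X227.UP.GenDefs

/-!
# Galois invariant classes over the ground field: definitions
-/

open CategoryTheory AlgebraicGeometry

universe u

namespace Pool.Agent.X227.UP

open Pool.Agent.H914 Pool.Agent.H914.VarClass Pool.Agent.H914.VarClass.Obj
  Pool.Agent.H914.WeilCohomology Pool.Agent.Y132.AH Pool.Agent.X227.MM

section Alg

variable {K A Γ : Type} [Field K] [Ring A] [Algebra K A] [Group Γ]

/-- The elements of degree `2 j` on which the whole group acts by `χ ^ j`. -/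
def ExactCls (χ : Γ →* Kˣ) (gr : ℕ → Submodule K A) (ρ : Γ →* (A ≃ₐ[K] A)) (j : ℕ) (c : A) :
    Prop :=
  c ∈ gr (2 * j) ∧ ∀ g, ρ g c = (χ g : K) ^ j • c

/-- All elements of degree `2 j` on which the whole group acts by `χ ^ j` and which are fixed by `E`
satisfy `M`, for all `j`. -/
def ExactFixed {χ : Γ →* Kˣ} {gr : ℕ → Submodule K A} {n : ℕ} {tr : A →ₗ[K] K} {Z : ℕ → Set A}
    (G : GalAlg Γ χ gr n tr Z) (M : A → Prop) (E : A → A) : Prop :=
  ∀ j c, ExactCls χ gr G.act j c → E c = c → M c

/-- The whole group acts on the elements of `Z j` by `χ ^ j`. -/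
def FixedCyc {χ : Γ →* Kˣ} {gr : ℕ → Submodule K A} {n : ℕ} {tr : A →ₗ[K] K} {Z : ℕ → Set A}
    (G : GalAlg Γ χ gr n tr Z) : Prop :=
  ∀ j, ∀ c ∈ Z j, ∀ g, G.act g c = (χ g : K) ^ j • c

end Alg

variable {k : Type u} [Field k] {𝒱 : VarClass k} {ops : CycleOps 𝒱}
  {W : WeilCohomology.{u, 0} ops} {Γ : Type} [Group Γ]

/-- The group fixes the classes of cycles, up to the Tate twist: the cycles are defined over the
ground field of which `Γ` is the Galois group. -/
def FixesCycles (G : GaloisData W Γ) : Prop := ∀ Y : 𝒱.Obj, FixedCyc (G.on Y)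

/-- **The motivic Tate conjecture** over the ground field, for the direct summand of `Y` which is cut
out by the operator `E`: every class of degree `2 j` on which the whole group acts by `χ ^ j` and which
is fixed by `E` is motivated. -/
def MotTateOver (G : GaloisData W Γ) (Y : 𝒱.Obj) (E : W.H Y → W.H Y) : Prop :=
  ExactFixed (G.on Y) (IsMotivated W Y) E

end Pool.Agent.X227.UP
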