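import Pool.Agent.X227.UP.Gen
import Pool.Agent.X227.NP.Two
import Pool.Agent.X227.UP.MT

/-!
# All powers at once: Hodge classes and Tate classes
-/

open CategoryTheory AlgebraicGeometry

universe u

namespace Pool.Agent.X227.UP

open Pool.Agent.H914 Pool.Agent.H914.VarClass Pool.Agent.H914.VarClass.Obj
  Pool.Agent.H914.WeilCohomology Pool.Agent.Y132.AH Pool.Agent.X227.MS Pool.Agent.H281R3.HT
  Pool.Agent.W552 Pool.Agent.TH125.Gal Pool.Agent.Y132.AF Pool.Agent.X227.MM Pool.Agent.X227.NP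

variable {k : Type u} [Field k] {𝒱 : VarClass k} {ops : CycleOps 𝒱} {ι : Type}
  {W : WeilCohomology.{u, 0} ops} {Γ : Type} [Group Γ]

theorem IsPair.mk' {ℳ 𝒩 : ESys W} {Conj : 𝒱.Obj → Prop}
    (h : ∀ Y, Conj Y ↔ Sub ℳ 𝒩 Y LinearMap.id) : IsPair ℳ 𝒩 Conj where
  iff := h
  iso {A B} e hA := by
    rw [h] at hA ⊢
    intro y hy
    have h1 : W.map e.hom y ∈ ℳ.S A LinearMap.id := ℳ.map_mem e.hom (fun y => rfl) hy
    have h2 : W.map e.inv (W.map e.hom y) ∈ 𝒩.S B LinearMap.id :=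
      𝒩.map_mem e.inv (fun y => rfl) (hA _ h1)
    rwa [← W.map_comp, e.inv_hom_id, W.map_id] at h2

/-- The conjecture that the classes of one kind are in a system. -/
theorem isPair_lin {P : ∀ X : 𝒱.Obj, ℕ → W.H X → Prop} (hP : GCls P) (𝒬 : ClassSystem W) :
    IsPair (ofSys hP.sys) (ofSys 𝒬) fun Y => ∀ j c, P Y j c → c ∈ 𝒬.C Y := by
  refine IsPair.mk' fun Y => ⟨fun h y hy => ⟨?_, hy.2⟩, fun h j c hc => ?_⟩
  · have h1 : hP.sys.C Y ≤ 𝒬.C Y := by
      rw [GCls.sys_C]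
      refine Submodule.span_le.2 ?_
      rintro c ⟨j, hj⟩
      exact h j c hj
    exact h1 hy.1
  · refine (h c ⟨?_, mem_fixed.2 rfl⟩).1
    rw [GCls.sys_C]
    exact Submodule.subset_span ⟨j, hc⟩

theorem gcls_tate (G : GaloisData W Γ) : GCls (W := W) (IsTate G) where
  cyc _ _ _ hz := isTate_cyc G hz
  add _ _ _ _ ha hb := isTate_add G ha hb
  smul _ _ _ q ha := isTate_smul G (q : W.K) ha
  mul _ _ _ _ _ ha hb := isTate_mul G ha hb
  map f _ _ hb := isTate_map G f hb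
  push f _ _ _ hl ha := isTate_push G f hl ha
  gr _ _ _ ha := ha.1

theorem isPair_th (Ψ : HodgeData W) (G : GaloisData W Γ) :
    IsPair (ofSys (gcls_tate G).sys) (ofSys (hodgeSys Ψ)) (TateInHodge Ψ G) := by
  have h := isPair_lin (gcls_tate G) (hodgeSys Ψ)
  have e : (fun Y => ∀ j c, IsTate G Y j c → c ∈ (hodgeSys Ψ).C Y) = TateInHodge Ψ G := by
    funext Y
    rw [← tateIn_hodge]
    rfl
  rwa [e] at h

theorem isPair_ht (Ψ : HodgeData W) (G : GaloisData W Γ) :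
    IsPair (ofSys (gcls_hodge Ψ).sys) (ofSys (tateSys G)) (HodgeInTate Ψ G) := by
  have h := isPair_lin (gcls_hodge Ψ) (tateSys G)
  have e : (fun Y => ∀ j c, IsHodge Ψ Y j c → c ∈ (tateSys G).C Y) = HodgeInTate Ψ G := by
    funext Y
    rw [← hodgeIn_tate]
    rfl
  rwa [e] at h

theorem mtAll_two (Ψ : HodgeData W) (G : GaloisData W Γ) (Y : 𝒱.Obj) :
    MumfordTateAll Ψ G Y ↔ (∀ n, TateInHodge Ψ G (powN Y n)) ∧
      ∀ n, HodgeInTate Ψ G (powN Y n) := by
  rw [← forall_and]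
  exact forall_congr' fun n => mumfordTate_iff G Ψ _

theorem filter_union [DecidableEq ι] (L : List ι) {B C : Finset ι} (h : B ⊆ C) :
    (L.filter (· ∈ C)).filter (· ∈ B) = L.filter (· ∈ B) := by
  rw [List.filter_filter]
  refine List.filter_congr fun i _ => ?_
  by_cases hB : i ∈ B
  · simp [hB, h hB]
  · simp [hB]

/-- **Hodge classes and Tate classes, all powers at once.** -/
theorem mt_both [IsAlgClosed W.K] [DecidableEq ι] (Ψ : HodgeData W) (G : GaloisData W Γ)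
    {X : ι → 𝒱.Obj} (Z : 𝒱.Obj) (hH : SpFamily Ψ X) (hG : BigFamily G X) :
    ∃ B B' : Finset ι, GenBound W X Z B ∧ GenBound W X Z B' ∧
      (∀ i ∈ B, ¬MonApart G (X i) Z ∧ ¬SlopeSep G (X i) Z) ∧ (∀ i ∈ B', ¬TypeSep Ψ (X i) Z) ∧
      (∀ (n : ℕ) (L : List ι), TateInHodge Ψ G (prodList X (powN Z n) L) ↔
        ∀ L' : List ι, L'.Sublist L → SmallDim W X (powN Z n) B L' →
          TateInHodge Ψ G (prodList X (powN Z n) L')) ∧
      (∀ (n : ℕ) (L : List ι), HodgeInTate Ψ G (prodList X (powN Z n) L) ↔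
        ∀ L' : List ι, L'.Sublist L → SmallDim W X (powN Z n) B' L' →
          HodgeInTate Ψ G (prodList X (powN Z n) L')) ∧
      ∀ L : List ι, MumfordTateAll Ψ G (prodList X Z L) ↔
        MumfordTateAll Ψ G (prodList X Z (L.filter (· ∈ B ∪ B'))) := by
  obtain ⟨B, h1, h2, h2', h3, -⟩ := gen_gal G Z (bigFamily_ad G (spFamily_odd Ψ hH) hG)
  obtain ⟨B', h1', h4, h3', -⟩ := gen_hodge Ψ Z hH
  have c1 := h3 (isPair_th Ψ G) fun Y E y hy => tateComp_tate G (by
    have h5 := hy.1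
    rwa [GCls.sys_C] at h5)
  have c2 := h3' (isPair_ht Ψ G) fun Y E y hy => hodgeComp_span Ψ hy.1
  refine ⟨B, B', h1, h1', fun i hi => ⟨h2 i hi, h2' i hi⟩, h4, c1.small, c2.small, fun L => ?_⟩
  rw [mtAll_two, mtAll_two, c1.only L, c2.only L, c1.only (L.filter (· ∈ B ∪ B')),
    c2.only (L.filter (· ∈ B ∪ B')), filter_union L Finset.subset_union_left,
    filter_union L Finset.subset_union_right]

end Pool.Agent.X227.UP
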