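import Pool.Agent.X227.UP.ExDefs
import Pool.Agent.X227.UP.Two

/-!
# All powers at once: Galois invariant classes over the ground field
-/

open CategoryTheory AlgebraicGeometry

universe u

namespace Pool.Agent.X227.UP

open Pool.Agent.H914 Pool.Agent.H914.VarClass Pool.Agent.H914.VarClass.Obj
  Pool.Agent.H914.WeilCohomology Pool.Agent.Y132.AH Pool.Agent.X227.MS Pool.Agent.H281R3.HT
  Pool.Agent.W552 Pool.Agent.TH125.Gal Pool.Agent.Y132.AF Pool.Agent.X227.MM Pool.Agent.X227.NP

variable {k : Type u} [Field k] {𝒱 : VarClass k} {ops : CycleOps 𝒱} {ι : Type}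
  {W : WeilCohomology.{u, 0} ops} {Γ : Type} [Group Γ]

/-- Classes of one kind, closed under linear combinations, which are fixed by a homogeneous operator
are in a system. -/
theorem lin_iff {P : ∀ X : 𝒱.Obj, ℕ → W.H X → Prop} (hP : GCls P)
    (h0 : ∀ Y j, P Y j 0) (hl : ∀ Y j (r : W.K) c, P Y j c → P Y j (r • c)) (𝒬 : ClassSystem W)
    {Y : 𝒱.Obj} {E : W.H Y →ₗ[W.K] W.H Y} (hE : HomOp E) :
    (∀ j c, P Y j c → E c = c → c ∈ 𝒬.C Y) ↔ Sub (ofSys hP.sys) (ofSys 𝒬) Y E := by
  constructor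
  · intro h y hy
    refine ⟨?_, hy.2⟩
    have h1 : y ∈ Submodule.span W.K {c | ∃ j, P Y j c} := hy.1
    have key : ∀ m, (¬Even m → prj (W.isInternal Y) m y = 0) ∧ ∀ j, m = 2 * j →
        P Y j (prj (W.isInternal Y) m y) := by
      intro m
      clear hy
      induction h1 using Submodule.span_induction with
      | mem c hc =>
        obtain ⟨i, hi⟩ := hc
        refine ⟨fun hm => prj_ne _ (fun h => hm (by rw [← h]; exact even_two_mul i))
          (hP.gr _ _ _ hi), ?_⟩
        rintro j rfl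
        by_cases hij : i = j
        · subst hij
          rw [prj_same _ (hP.gr _ _ _ hi)]
          exact hi
        · rw [prj_ne _ (by omega) (hP.gr _ _ _ hi)]
          exact h0 Y j
      | zero => exact ⟨fun _ => map_zero _, fun j _ => by rw [map_zero]; exact h0 Y j⟩
      | add x y _ _ hx hy =>
        exact ⟨fun h => by rw [map_add, hx.1 h, hy.1 h, add_zero],
          fun j hj => by rw [map_add]; exact hP.add _ _ _ _ (hx.2 j hj) (hy.2 j hj)⟩
      | smul r x _ hx =>
        exact ⟨fun h => by rw [map_smul, hx.1 h, smul_zero],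
          fun j hj => by rw [map_smul]; exact hl _ _ _ _ (hx.2 j hj)⟩
    obtain ⟨s, hs⟩ := eq_sum_prj (W.isInternal Y) y
    rw [hs s subset_rfl]
    refine Submodule.sum_mem _ fun m _ => ?_
    by_cases hm : Even m
    · obtain ⟨j, hj⟩ := hm
      refine h j _ ((key m).2 j (by omega)) ?_
      change E (prj (W.isInternal Y) m y) = _
      rw [← hE m y, mem_fixed.1 hy.2]
    · rw [(key m).1 hm]
      exact Submodule.zero_mem _
  · intro h j c hc hEc
    exact (h c ⟨Submodule.subset_span ⟨j, hc⟩, hEc⟩).1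

/-- The Galois invariant classes. -/
def IsExact (G : GaloisData W Γ) (Y : 𝒱.Obj) (j : ℕ) (c : W.H Y) : Prop :=
  ExactCls G.χ (W.gr Y) (G.on Y).act j c

theorem isExact_tate {G : GaloisData W Γ} {Y : 𝒱.Obj} {j : ℕ} {c : W.H Y}
    (h : IsExact G Y j c) : IsTate G Y j c :=
  ⟨h.1, ⊤, inferInstance, fun g _ => h.2 g⟩

theorem isExact_push (G : GaloisData W Γ) {X Y : 𝒱.Obj} (f : X ⟶ Y) {j l : ℕ}
    (hl : l + X.dim = j + Y.dim) {a : W.H X} (ha : IsExact G X j a) :
    IsExact G Y l (W.push f a) := by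
  have h0 := isTate_push G f hl (isExact_tate ha)
  refine ⟨h0.1, fun g => ?_⟩
  rw [← sub_eq_zero]
  apply W.nondeg
  intro b
  have hinv : G.act Y g (G.act Y g⁻¹ b) = b := by
    rw [← AlgEquiv.mul_apply, ← map_mul, mul_inv_cancel, map_one, AlgEquiv.one_apply]
  have h2 : (G.χ g : W.K) ^ X.dim * W.tr Y (G.act Y g (W.push f a) * b) =
      (G.χ g : W.K) ^ X.dim * W.tr Y ((G.χ g : W.K) ^ l • W.push f a * b) := by
    have e1 : W.tr Y (G.act Y g (W.push f a) * b) =
        (G.χ g : W.K) ^ Y.dim * W.tr X (a * W.map f (G.act Y g⁻¹ b)) := by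
      conv_lhs => rw [← hinv]
      rw [← map_mul, (G.galois Y).tr_act, W.tr_push]
    have hinv' : G.act X g (G.act X g⁻¹ (W.map f b)) = W.map f b := by
      rw [← AlgEquiv.mul_apply, ← map_mul, mul_inv_cancel, map_one, AlgEquiv.one_apply]
    have e2 : (G.χ g : W.K) ^ X.dim * W.tr X (a * W.map f (G.act Y g⁻¹ b)) =
        W.tr X (G.act X g a * W.map f b) := by
      rw [← (G.galois X).tr_act g, map_mul, ← G.map f g⁻¹ b, hinv']
    rw [e1, mul_left_comm, e2, ha.2 g, smul_mul_assoc, map_smul, smul_mul_assoc, map_smul,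
      smul_eq_mul, smul_eq_mul, W.tr_push, ← mul_assoc, ← mul_assoc, ← pow_add, ← pow_add]
    congr 2
    omega
  rw [sub_mul, map_sub, sub_eq_zero]
  exact mul_left_cancel₀ (pow_ne_zero _ (Units.ne_zero _)) h2

theorem gcls_exact {G : GaloisData W Γ} (hG : FixesCycles G) : GCls (W := W) (IsExact G) where
  cyc X j z hz := ⟨(isTate_cyc G hz).1, hG X j _ ⟨z, hz, rfl⟩⟩
  add _ _ _ _ ha hb := ⟨Submodule.add_mem _ ha.1 hb.1, fun g => by
    rw [map_add, ha.2, hb.2, smul_add]⟩
  smul _ _ _ q ha := ⟨Submodule.smul_mem _ _ ha.1, fun g => by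
    rw [map_smul, ha.2, smul_comm]⟩
  mul X i j a b ha hb := ⟨by
    rw [mul_add]
    exact W.mul_mem ha.1 hb.1, fun g => by
    rw [map_mul, ha.2, hb.2, smul_mul_smul_comm, ← pow_add]⟩
  map f j b hb := ⟨W.map_mem f hb.1, fun g => by
    change G.act _ g _ = _
    rw [G.map f g b]
    change W.map f (G.act _ g b) = _
    rw [show G.act _ g b = _ from hb.2 g, map_smul]⟩
  push f _ _ _ hl ha := isExact_push G f hl ha
  gr _ _ _ ha := ha.1

theorem over_list {G : GaloisData W Γ} (hG : FixesCycles G) (X : ι → 𝒱.Obj) {Z : 𝒱.Obj}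
    {e : W.H (Z.prod Z)} (he : Motive Z e)
    (L : List ι) : MotTateOver G (prodList X Z L) (overOp X e L) ↔
      Sub (ofSys (gcls_exact hG).sys) (ofSys (motivatedSys W)) (prodList X Z L)
        (listOp X (ncOp e) L) := by
  rw [overOp_eq X he.1, ← lin_iff (gcls_exact hG)
    (fun Y j => ⟨Submodule.zero_mem _, fun g => by rw [map_zero, smul_zero]⟩)
    (fun Y j r c hc => ⟨Submodule.smul_mem _ _ hc.1, fun g => by
      rw [map_smul, hc.2, smul_comm]⟩) (motivatedSys W) (homOp_list X (homOp_nc he.1) L)]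
  refine forall_congr' fun j => forall_congr' fun c => forall_congr' fun _ =>
    forall_congr' fun _ => ?_
  rw [motivated_eq]

/-- **The motivic Tate conjecture over the ground field.** -/
theorem over_gen [IsAlgClosed W.K] [DecidableEq ι] {G : GaloisData W Γ} (hcyc : FixesCycles G)
    {X : ι → 𝒱.Obj} (Z : 𝒱.Obj) (hX : ∀ i, OddMiddle W (X i)) (hG : BigFamily G X) :
    ∃ B : Finset ι, GenBound W X Z B ∧ (∀ i ∈ B, ¬MonApart G (X i) Z) ∧
      (∀ (n : ℕ) (e : W.H ((powN Z n).prod (powN Z n))), Motive (powN Z n) e →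
        ∀ L : List ι, MotTateOver G (prodList X (powN Z n) L) (overOp X e L) ↔
          ∀ L' : List ι, L'.Sublist L → SmallDim W X (powN Z n) B L' →
            MotTateOver G (prodList X (powN Z n) L') (overOp X e L')) := by
  obtain ⟨B, h1, h2, -, -, h3⟩ := gen_gal G Z (bigFamily_ad G hX hG)
  refine ⟨B, h1, h2, fun n e he L => ?_⟩
  have h4 := h3 n (ofSys (gcls_exact hcyc).sys) (ofSys (motivatedSys W)) (ncOp e) L
    fun Y E y hy => tateComp_tate G (by
      have h5 := hy.1
      rw [GCls.sys_C] at h5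
      exact Submodule.span_mono (fun c hc => by
        obtain ⟨j, hj⟩ := hc
        exact ⟨j, isExact_tate hj⟩) h5)
  rw [over_list hcyc X he, h4]
  exact forall_congr' fun L' => forall_congr' fun _ => forall_congr' fun _ =>
    (over_list hcyc X he L').symm

end Pool.Agent.X227.UP
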