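import Pool.Agent.X227.UP.Conj
import Pool.Agent.X227.UP.GenDefs

/-!
# All powers at once: the bound by the generators of the cohomology
-/

open CategoryTheory AlgebraicGeometry Finset Function
open Pool.Agent.Y132.EP (DG tow lin lin_apply sk)

set_option linter.unusedSectionVars false

universe u v w

namespace Pool.Agent.X227.UP

open Pool.Agent.H914 Pool.Agent.H914.VarClass Pool.Agent.H914.VarClass.Obj
  Pool.Agent.H914.WeilCohomology Pool.Agent.H281R3.HT Pool.Agent.W552 Pool.Agent.TH125.Gal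
  Pool.Agent.Y132.AF Pool.Agent.Y132.AH Pool.Agent.X227.DN Pool.Agent.X227.MM Pool.Agent.X227.MS
  Pool.Agent.X227.NP

variable {k : Type u} [Field k] {𝒱 : VarClass k} {ops : CycleOps 𝒱}
  {W : WeilCohomology.{u, 0} ops} {Γ : Type} [Group Γ] {ι : Type} {χ : Γ →* W.Kˣ}
  {A : ∀ Y : 𝒱.Obj, Γ →* (W.H Y ≃ₐ[W.K] W.H Y)}

/-- The sum of the cohomologies in the degrees in `S`. -/
noncomputable def degSub (W : WeilCohomology.{u, 0} ops) (Z : 𝒱.Obj) (S : Finset ℕ) :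
    Submodule W.K (W.H Z) := ⨆ m ∈ S, W.gr Z m

theorem finrank_degSub (Z : 𝒱.Obj) (S : Finset ℕ) :
    Module.finrank W.K (degSub W Z S) ≤ ∑ m ∈ S, Pool.Agent.Y132.AH.betti W Z m := by
  classical
  induction S using Finset.induction_on with
  | empty =>
    have h1 : degSub W Z ∅ = ⊥ := by simp [degSub]
    rw [h1, finrank_bot, Finset.sum_empty]
  | insert a S ha ih =>
    have h1 : degSub W Z (insert a S) = W.gr Z a ⊔ degSub W Z S := by
      rw [degSub, Finset.iSup_insert]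
      rfl
    rw [h1, Finset.sum_insert ha]
    refine (Submodule.finrank_add_le_finrank_add_finrank _ _).trans ?_
    exact Nat.add_le_add (le_of_eq rfl) ih

theorem deg_stable (hA : NatAct A) (Z : 𝒱.Obj) (S : Finset ℕ) (g : Γ) {x : W.H Z}
    (hx : x ∈ degSub W Z S) : A Z g x ∈ degSub W Z S := by
  have h1 : degSub W Z S ≤ (degSub W Z S).comap (A Z g).toLinearMap := by
    refine iSup₂_le fun m hm y hy => ?_
    exact Submodule.mem_iSup_of_mem m (Submodule.mem_iSup_of_mem hm (hA.deg Z g m y hy))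
  exact h1 hx

theorem der_deg_zero (Z : 𝒱.Obj) (n : ℕ) {S : Finset ℕ} (hS : GenIn W Z S)
    (D : W.H (powN Z n) →ₗ[W.K] W.H (powN Z n))
    (hD : ∀ x y, D (x * y) = D x * y + x * D y)
    (hC : ∀ (f : powN Z n ⟶ powN Z n) x, D (W.map f x) = W.map f (D x))
    (h0 : ∀ z ∈ degSub W Z S, D (W.map (pr0 Z n) z) = 0) : D = 0 := by
  refine der_pow_zero Z n D hD hC fun z => ?_
  have h1 : D 1 = 0 := by
    have h2 := hD 1 1
    rw [mul_one, mul_one, one_mul] at h2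
    exact left_eq_add.1 h2
  have hz : z ∈ Algebra.adjoin W.K {x : W.H Z | ∃ m ∈ S, x ∈ W.gr Z m} := by
    have h2 : Algebra.adjoin W.K {x : W.H Z | ∃ m ∈ S, x ∈ W.gr Z m} = ⊤ := hS
    rw [h2]
    exact Algebra.mem_top
  induction hz using Algebra.adjoin_induction with
  | mem x hx =>
    obtain ⟨m, hm, hx⟩ := hx
    exact h0 x (Submodule.mem_iSup_of_mem m (Submodule.mem_iSup_of_mem hm hx))
  | algebraMap r => rw [AlgHom.commutes, Algebra.algebraMap_eq_smul_one, map_smul, h1, smul_zero]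
  | add x y _ _ hx hy => rw [map_add, map_add, hx, hy, add_zero]
  | mul x y _ _ hx hy => rw [map_mul, hD, hx, hy, zero_mul, mul_zero, add_zero]

variable {X : ι → DG W Γ}

/-- **The bound for the indices which occur for some power of `Z`.** -/
theorem occurs_bound' [IsAlgClosed W.K] [DecidableEq ι] (hA : NatAct A) (h : Hy χ X) (Z : 𝒱.Obj)
    {S' : Finset ℕ} (hS' : GenIn W Z S')
    (S₀ : Finset ι) (hocc : ∀ i ∈ S₀, Occurs hA h Z i) :
    ∑ i ∈ S₀, (Module.finrank W.K (transcendental W (X i).X) + 1).choose 2 ≤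
      (∑ m ∈ S', Pool.Agent.Y132.AH.betti W Z m) ^ 2 := by
  choose N n c m j hO s hs using hocc
  let M : ℕ := ∑ i ∈ S₀.attach, N i.1 i.2
  have hM : ∀ (i : ι) (hi : i ∈ S₀), N i hi ≤ M := fun i hi =>
    Finset.single_le_sum (f := fun i : S₀ => N i.1 i.2) (fun _ _ => Nat.zero_le _)
      (Finset.mem_attach S₀ ⟨i, hi⟩)
  let S : Finset ι := S₀.attach.biUnion fun i => univ.image (c i.1 i.2)
  have hS : ∀ (i : ι) (hi : i ∈ S₀) (t : Fin (n i hi)), c i hi t ∈ S := by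
    intro i hi t
    rw [Finset.mem_biUnion]
    exact ⟨⟨i, hi⟩, Finset.mem_attach _ _, Finset.mem_image_of_mem _ (Finset.mem_univ t)⟩
  have hsub : S₀ ⊆ S := by
    intro i hi
    have h1 := hS i hi (s i hi)
    rwa [hs] at h1
  rcases S₀.eq_empty_or_nonempty with h0 | ⟨i₁, hi₁⟩
  · rw [h0, Finset.sum_empty]
    exact Nat.zero_le _
  have hone : (1 : W.H (powN Z M)) ≠ 0 := occ_one h (occ_le hA h (hM i₁ hi₁) (hO i₁ hi₁))
  have hX := h.comp (fun i : S => (i : ι)) Subtype.val_injective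
  obtain ⟨G, g, b, -, hb⟩ := exists_bases hX
  have h1 := sum_sk_le (adFam hX) hX.alt (τ := lin (pw hA Z M).toGVar) (U := ⊤)
    (fun g x y => map_mul ((pw hA Z M).act g) x y) hb (fun i => by
      obtain ⟨⟨i₀, hi₀⟩, -, h2⟩ := Finset.mem_biUnion.1 i.2
      obtain ⟨t, -, ht⟩ := Finset.mem_image.1 h2
      obtain ⟨-, f, hf⟩ := (occ_le hA h (hM i₀ hi₀) (hO i₀ hi₀)).restrict h S (hS i₀ hi₀)
      exact ⟨n i₀ hi₀, _, _, f, ⟨hf.tate, fun _ => Submodule.mem_top, hf.ne, hf.tr⟩, t,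
        Subtype.ext ht⟩)
    (𝒞 := {C | ∃ f : powN Z M ⟶ powN Z M, C = (W.map f).toLinearMap})
    (by
      rintro _ ⟨f, rfl⟩ g x
      exact hA.map f g x)
    (j := (W.map (pr0 Z M)).toLinearMap ∘ₗ (degSub W Z S').subtype)
    (fun x y hxy => Subtype.ext (pr0_inj Z M hone hxy))
    (fun g x => ⟨⟨A Z g x, deg_stable hA Z S' g x.2⟩, hA.map (pr0 Z M) g x⟩)
    (fun D hD hC h0 => der_deg_zero Z M hS' D hD (fun f x => hC _ ⟨f, rfl⟩ x)
      fun z hz => h0 ⟨z, hz⟩)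
  refine le_trans ?_ (le_trans (Finset.sum_le_sum fun i _ => choose_le_sk (hX.alt i) (hX.nd i))
    (h1.trans (Nat.pow_le_pow_left (finrank_degSub Z S') 2)))
  refine (Finset.sum_le_sum_of_subset hsub).trans (le_of_eq ?_)
  exact (Finset.sum_coe_sort S fun i =>
    (Module.finrank W.K (transcendental W (X i).X) + 1).choose 2).symm

/-- The indices which occur for some power of `Z`. -/
theorem exists_all' [IsAlgClosed W.K] [DecidableEq ι] (hA : NatAct A) (h : Hy χ X) (Z : 𝒱.Obj) :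
    ∃ B : Finset ι, (∀ S, GenIn W Z S →
        ∑ i ∈ B, (Module.finrank W.K (transcendental W (X i).X) + 1).choose 2 ≤
          (∑ m ∈ S, Pool.Agent.Y132.AH.betti W Z m) ^ 2) ∧
      (∀ i ∈ B, ∃ N, StableBound χ (X i).toGVar (pw hA Z N).toGVar) ∧
      ∀ (N n : ℕ) (c : Fin n → ι) (m j : ℕ), Occ h (pw hA Z N) c m j → ∀ s, c s ∈ B := by
  let P : Set ι := {i | Occurs hA h Z i}
  have hpos : ∀ i, 1 ≤ (Module.finrank W.K (transcendental W (X i).X) + 1).choose 2 := by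
    intro i
    obtain ⟨F, x, hx, y, hy, hx0, -⟩ := h.hyp i
    have : Nontrivial (transcendental W (X i).X) :=
      ⟨⟨⟨x, hx⟩, 0, fun h => hx0 (congrArg Subtype.val h)⟩⟩
    have h1 : 0 < Module.finrank W.K (transcendental W (X i).X) := Module.finrank_pos
    exact Nat.choose_pos (by omega)
  have hfin : P.Finite := by
    by_contra hinf
    obtain ⟨t, ht, hcard⟩ := (Set.not_finite.1 hinf).exists_subset_card_eq
      (Module.finrank W.K (W.H Z) ^ 2 + 1)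
    have h1 := occurs_bound hA h Z t fun i hi => ht hi
    have h2 := Finset.card_nsmul_le_sum t
      (fun i => (Module.finrank W.K (transcendental W (X i).X) + 1).choose 2) 1 fun i _ => hpos i
    rw [smul_eq_mul, mul_one] at h2
    omega
  refine ⟨hfin.toFinset, fun S hS => occurs_bound' hA h Z hS _ fun i hi => hfin.mem_toFinset.1 hi,
    fun i hi => ?_, fun N n c m j h s => hfin.mem_toFinset.2 ⟨N, n, c, m, j, h, s, rfl⟩⟩
  obtain ⟨N, n, c, m, j, hO, s, rfl⟩ := hfin.mem_toFinset.1 hi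
  exact ⟨N, Occ.stableBound h hO s⟩

/-- **Pairs of systems of classes, for all powers of `Z`.** -/
theorem sys_all' [IsAlgClosed W.K] [DecidableEq ι] (hA : NatAct A) {X : ι → 𝒱.Obj}
    {Z : 𝒱.Obj} (hX : AdFamily χ fun i => (⟨X i, A (X i)⟩ : GVar W Γ))
    (htow : ∀ (n : ℕ) (L : List ι) (Y : GVar W Γ),
      IsTower (fun i => (⟨X i, A (X i)⟩ : GVar W Γ)) ⟨powN Z n, A (powN Z n)⟩ L Y →
        Y = ⟨Y.X, A Y.X⟩) :
    ∃ B : Finset ι, (∀ S, GenIn W Z S →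
        ∑ i ∈ B, (trDim W (X i) + 1).choose 2 ≤ (∑ m ∈ S, Pool.Agent.Y132.AH.betti W Z m) ^ 2) ∧
      (∀ i ∈ B, ∃ n, StableBound χ (⟨X i, A (X i)⟩ : GVar W Γ) ⟨powN Z n, A (powN Z n)⟩) ∧
      ∀ (n : ℕ) (ℳ 𝒩 : ESys W) (E : W.H (powN Z n) →ₗ[W.K] W.H (powN Z n)) (L : List ι),
        (∀ (Y : 𝒱.Obj) (E : W.H Y →ₗ[W.K] W.H Y), ∀ y ∈ ℳ.S Y E,
          TateComp χ (⟨Y, A Y⟩ : GVar W Γ) y) →
        (Sub ℳ 𝒩 (prodList X (powN Z n) L) (listOp X E L) ↔ ∀ L' : List ι, L'.Sublist L →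
          SmallList χ (fun i => (⟨X i, A (X i)⟩ : GVar W Γ)) ⟨powN Z n, A (powN Z n)⟩ B L' →
            Sub ℳ 𝒩 (prodList X (powN Z n) L') (listOp X E L')) := by
  let X' : ι → DG W Γ := fun i => ⟨⟨X i, A (X i)⟩, (hX.var i).act.galois.gr_mem⟩
  have hX' : Hy χ X' := ⟨fun i => isGalois (hX.var i).act.galois,
    fun i => (hX.var i).homEqNum, fun i => (hX.var i).act.middle, fun i => (hX.var i).act.odd,
    fun i => (hX.var i).act.irreducible, fun i => (hX.var i).act.hyperbolic, hX.adjoint⟩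
  obtain ⟨B, hBcard, hBs, hB⟩ := exists_all' hA hX' Z
  refine ⟨B, hBcard, hBs, fun n ℳ 𝒩 E L hfix => ⟨fun hT L' hsub _ => ?_, fun hT => ?_⟩⟩
  · -- subproducts
    have hone : ∀ i, (1 : W.H (X i)) ≠ 0 := by
      intro i h0
      obtain ⟨F, x, hx, y, hy, hx0, -⟩ := hX'.hyp i
      apply hx0
      rw [← one_mul x]
      change (1 : W.H (X i)) * x = 0
      rw [h0, zero_mul]
    exact sys_sublist hX'.hom hone hsub hT
  · -- reduction to small lists
    have e : L = (List.finRange L.length).map L.get := by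
      rw [← List.ofFn_eq_map, List.ofFn_get]
    have h1 := tow_list (X' := X') (Z' := pw hA Z n) L.get E (fun Y E => Sub ℳ 𝒩 Y E)
      (List.finRange L.length)
    rw [← e] at h1
    refine h1.1 (main_sys hX' (hB n) L.get (List.nodup_finRange _) (fun y hy => ?_)
      fun l' hl' hsmall => ?_)
    · have h2 := htow n _ _ (isTower_tow X' (pw hA Z n) L.get (List.finRange L.length))
      have h3 : ∀ (Y : GVar W Γ), Y = ⟨Y.X, A Y.X⟩ → ∀ (E : W.H Y.X →ₗ[W.K] W.H Y.X),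
          ∀ y ∈ ℳ.S Y.X E, TateComp χ Y y := by
        intro Y hY
        rw [hY]
        exact hfix Y.X
      exact h3 _ h2 _ y hy
    · have h2 := (tow_list (X' := X') (Z' := pw hA Z n) L.get E (fun Y E => Sub ℳ 𝒩 Y E) l').2
      refine h2 (hT _ ?_ hsmall)
      have h3 := hl'.map L.get
      rwa [← e] at h3

/-- **All powers at once, Hodge structures.** -/
theorem gen_hodge [IsAlgClosed W.K] [DecidableEq ι] (Ψ : HodgeData W) {X : ι → 𝒱.Obj}
    (Z : 𝒱.Obj) (hX : SpFamily Ψ X) :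
    ∃ B : Finset ι, GenBound W X Z B ∧
      (∀ i ∈ B, ¬TypeSep Ψ (X i) Z) ∧
      (∀ {ℳ 𝒩 : ESys W} {Conj : 𝒱.Obj → Prop}, IsPair ℳ 𝒩 Conj →
        (∀ (Y : 𝒱.Obj) (E : W.H Y →ₗ[W.K] W.H Y), ∀ y ∈ ℳ.S Y E, HodgeComp Ψ Y y) →
          Controls W X Z B Conj) ∧
      ∀ (n : ℕ) (ℳ 𝒩 : ESys W) (E : W.H (powN Z n) →ₗ[W.K] W.H (powN Z n)) (L : List ι),
        (∀ (Y : 𝒱.Obj) (E : W.H Y →ₗ[W.K] W.H Y), ∀ y ∈ ℳ.S Y E, HodgeComp Ψ Y y) →
        (Sub ℳ 𝒩 (prodList X (powN Z n) L) (listOp X E L) ↔ ∀ L' : List ι, L'.Sublist L →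
          SmallDim W X (powN Z n) B L' →
            Sub ℳ 𝒩 (prodList X (powN Z n) L') (listOp X E L')) := by
  obtain ⟨B, h1, h2, h3⟩ := sys_all' (natAct_hodge Ψ) (X := X) (Z := Z) (adFamily Ψ hX)
    (fun n L Y hY => by
      have h4 := isTower_eq Ψ hY
      rw [h4])
  have key : ∀ (n : ℕ) (ℳ 𝒩 : ESys W) (E : W.H (powN Z n) →ₗ[W.K] W.H (powN Z n)) (L : List ι),
        (∀ (Y : 𝒱.Obj) (E : W.H Y →ₗ[W.K] W.H Y), ∀ y ∈ ℳ.S Y E, HodgeComp Ψ Y y) →
        (Sub ℳ 𝒩 (prodList X (powN Z n) L) (listOp X E L) ↔ ∀ L' : List ι, L'.Sublist L →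
          SmallDim W X (powN Z n) B L' →
            Sub ℳ 𝒩 (prodList X (powN Z n) L') (listOp X E L')) := by
    intro n ℳ 𝒩 E L hc
    have h4 := h3 n ℳ 𝒩 E L fun Y E y hy => tateComp_of Ψ (hc Y E y hy)
    exact ⟨fun h L' hsub _ => sys_sublist (fun i => (hX.var i).homEqNum) (sp_one hX) hsub h,
      fun h => h4.2 fun L' hsub hsmall => h L' hsub (small_hodge Ψ (smallHodge Ψ hX hsmall))⟩
  refine ⟨B, h1, fun i hi h => ?_, fun {ℳ 𝒩 Conj} h hc => h.controls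
    (fun i => (hX.var i).homEqNum) (sp_one hX) fun n L hL => ?_, key⟩
  · obtain ⟨n, hn⟩ := h2 i hi
    exact not_typeSep Ψ hX hn (typeSep_pow Ψ h n)
  · have h4 := key n ℳ 𝒩 LinearMap.id L hc
    simp only [listOp_id] at h4
    exact h4.2 fun L' ha hb => hL L' ha hb

/-- **All powers at once, Galois actions.** -/
theorem gen_gal [IsAlgClosed W.K] [DecidableEq ι] (G : GaloisData W Γ) {X : ι → 𝒱.Obj}
    (Z : 𝒱.Obj) (hX : AdFamily G.χ fun i => G.var (X i)) :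
    ∃ B : Finset ι, GenBound W X Z B ∧
      (∀ i ∈ B, ¬MonApart G (X i) Z) ∧ (∀ i ∈ B, ¬SlopeSep G (X i) Z) ∧
      (∀ {ℳ 𝒩 : ESys W} {Conj : 𝒱.Obj → Prop}, IsPair ℳ 𝒩 Conj →
        (∀ (Y : 𝒱.Obj) (E : W.H Y →ₗ[W.K] W.H Y), ∀ y ∈ ℳ.S Y E, TateComp G.χ (G.var Y) y) →
          Controls W X Z B Conj) ∧
      ∀ (n : ℕ) (ℳ 𝒩 : ESys W) (E : W.H (powN Z n) →ₗ[W.K] W.H (powN Z n)) (L : List ι),
        (∀ (Y : 𝒱.Obj) (E : W.H Y →ₗ[W.K] W.H Y), ∀ y ∈ ℳ.S Y E, TateComp G.χ (G.var Y) y) →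
        (Sub ℳ 𝒩 (prodList X (powN Z n) L) (listOp X E L) ↔ ∀ L' : List ι, L'.Sublist L →
          SmallDim W X (powN Z n) B L' →
            Sub ℳ 𝒩 (prodList X (powN Z n) L') (listOp X E L')) := by
  obtain ⟨B, h1, h2, h3⟩ := sys_all' (natAct_gal G) (X := X) (Z := Z) hX
    (fun n L Y hY => by
      have h4 := var_tower_eq G hY
      rw [h4])
  have hone : ∀ i, (1 : W.H (X i)) ≠ 0 := by
    intro i h0
    obtain ⟨F, x, hx, y, hy, hx0, -⟩ := (hX.var i).act.hyperbolic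
    apply hx0
    rw [← one_mul x]
    change (1 : W.H (X i)) * x = 0
    rw [h0, zero_mul]
  have key : ∀ (n : ℕ) (ℳ 𝒩 : ESys W) (E : W.H (powN Z n) →ₗ[W.K] W.H (powN Z n)) (L : List ι),
        (∀ (Y : 𝒱.Obj) (E : W.H Y →ₗ[W.K] W.H Y), ∀ y ∈ ℳ.S Y E, TateComp G.χ (G.var Y) y) →
        (Sub ℳ 𝒩 (prodList X (powN Z n) L) (listOp X E L) ↔ ∀ L' : List ι, L'.Sublist L →
          SmallDim W X (powN Z n) B L' →
            Sub ℳ 𝒩 (prodList X (powN Z n) L') (listOp X E L')) := by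
    intro n ℳ 𝒩 E L hc
    have h4 := h3 n ℳ 𝒩 E L hc
    exact ⟨fun h L' hsub _ => sys_sublist (fun i => (hX.var i).homEqNum) hone hsub h,
      fun h => h4.2 fun L' hsub hsmall => h L' hsub (small_list G hsmall)⟩
  refine ⟨B, h1, fun i hi h => ?_, fun i hi h => ?_, fun {ℳ 𝒩 Conj} h hc => h.controls
    (fun i => (hX.var i).homEqNum) hone fun n L hL => ?_, key⟩
  · obtain ⟨n, hn⟩ := h2 i hi
    exact not_stable G (mon_pow G h n) hn
  · obtain ⟨n, hn⟩ := h2 i hi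
    exact not_stableBound G (slopeSep_pow G h n) hn
  · have h4 := key n ℳ 𝒩 LinearMap.id L hc
    simp only [listOp_id] at h4
    exact h4.2 fun L' ha hb => hL L' ha hb

end Pool.Agent.X227.UP
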