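import Pool.Agent.X227.UP.Sk
import Pool.Agent.X227.MS.App
import Pool.Agent.Y132.AH.Iso

/-!
# All powers at once: the geometry
-/

open CategoryTheory AlgebraicGeometry Finset Function
open Pool.Agent.Y132.EP (DG tow lin lin_apply sk)

set_option linter.unusedSectionVars false

universe u v w

namespace Pool.Agent.X227.UP

open Pool.Agent.H914 Pool.Agent.H914.VarClass Pool.Agent.H914.VarClass.Obj
  Pool.Agent.H914.WeilCohomology Pool.Agent.H281R3.HT Pool.Agent.W552 Pool.Agent.TH125.Gal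
  Pool.Agent.Y132.AF Pool.Agent.Y132.AH Pool.Agent.X227.DN Pool.Agent.X227.MM Pool.Agent.X227.MS

variable {k : Type u} [Field k] {𝒱 : VarClass k} {ops : CycleOps 𝒱}

/-- The first projection of the power. -/
noncomputable def pr0 (Z : 𝒱.Obj) : ∀ n, powN Z n ⟶ Z
  | 0 => 𝟙 Z
  | n + 1 => fst Z (powN Z n)

theorem exists_lift (Z : 𝒱.Obj) (n : ℕ) (q : powN Z n ⟶ Z) :
    ∃ f : powN Z n ⟶ powN Z n, f ≫ pr0 Z n = q := by
  cases n with
  | zero => exact ⟨q, Category.comp_id q⟩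
  | succ n => exact ⟨Obj.lift q (snd Z (powN Z n)), Obj.lift_fst _ _⟩

variable {W : WeilCohomology.{u, 0} ops}

/-- The cohomology of `Y` is generated by the pull-backs of the cohomology of `Z`. -/
def GenBy (W : WeilCohomology.{u, 0} ops) (Z Y : 𝒱.Obj) : Prop := Algebra.adjoin W.K
  {x : W.H Y | ∃ (q : Y ⟶ Z) (z : W.H Z), x = W.map q z} = ⊤

theorem gen_id (Z : 𝒱.Obj) : GenBy W Z Z :=
  eq_top_iff.2 fun x _ => Algebra.subset_adjoin ⟨𝟙 Z, x, by rw [W.map_id]⟩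

theorem gen_prod {Z Y : 𝒱.Obj} (ih : GenBy W Z Y) : GenBy W Z (Z.prod Y) := by
  refine eq_top_iff.2 fun x _ => ?_
  refine W.kunneth_induction (p := fun x => x ∈ Algebra.adjoin W.K
    {x : W.H (Z.prod Y) | ∃ (q : Z.prod Y ⟶ Z) (z : W.H Z), x = W.map q z})
    (fun a b ha hb => Subalgebra.add_mem _ ha hb) ?_ x
  intro _ _ a _ b hdeg
  clear hdeg
  refine Subalgebra.mul_mem _ (Algebra.subset_adjoin ⟨fst Z Y, a, rfl⟩) ?_
  have hb : b ∈ Algebra.adjoin W.K
      {x : W.H Y | ∃ (q : Y ⟶ Z) (z : W.H Z), x = W.map q z} := by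
    rw [show Algebra.adjoin W.K
      {x : W.H Y | ∃ (q : Y ⟶ Z) (z : W.H Z), x = W.map q z} = ⊤ from ih]
    exact Algebra.mem_top
  induction hb using Algebra.adjoin_induction with
  | mem y hy =>
    obtain ⟨q, z, rfl⟩ := hy
    refine Algebra.subset_adjoin ⟨snd Z Y ≫ q, z, ?_⟩
    rw [W.map_comp]
  | algebraMap r =>
    rw [AlgHom.commutes]
    exact Subalgebra.algebraMap_mem _ r
  | add x y _ _ hx hy =>
    rw [map_add]
    exact Subalgebra.add_mem _ hx hy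
  | mul x y _ _ hx hy =>
    rw [map_mul]
    exact Subalgebra.mul_mem _ hx hy

theorem gen_pow (Z : 𝒱.Obj) (n : ℕ) : GenBy W Z (powN Z n) := by
  induction n with
  | zero => exact gen_id Z
  | succ n ih => exact gen_prod ih

theorem der_pow_zero (Z : 𝒱.Obj) (n : ℕ) (D : W.H (powN Z n) →ₗ[W.K] W.H (powN Z n))
    (hD : ∀ x y, D (x * y) = D x * y + x * D y)
    (hC : ∀ (f : powN Z n ⟶ powN Z n) x, D (W.map f x) = W.map f (D x))
    (h0 : ∀ z, D (W.map (pr0 Z n) z) = 0) : D = 0 := by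
  have h1 : D 1 = 0 := by
    have h2 := hD 1 1
    rw [mul_one, mul_one, one_mul] at h2
    exact left_eq_add.1 h2
  apply LinearMap.ext
  intro x
  rw [LinearMap.zero_apply]
  have hx : x ∈ Algebra.adjoin W.K
      {x : W.H (powN Z n) | ∃ (q : powN Z n ⟶ Z) (z : W.H Z), x = W.map q z} := by
    rw [show Algebra.adjoin W.K
      {x : W.H (powN Z n) | ∃ (q : powN Z n ⟶ Z) (z : W.H Z), x = W.map q z} = ⊤ from gen_pow Z n]
    exact Algebra.mem_top
  induction hx using Algebra.adjoin_induction with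
  | mem x hx =>
    obtain ⟨q, z, rfl⟩ := hx
    obtain ⟨f, rfl⟩ := exists_lift Z n q
    rw [W.map_comp, hC, h0, map_zero]
  | algebraMap r => rw [Algebra.algebraMap_eq_smul_one, map_smul, h1, smul_zero]
  | add x y _ _ hx hy => rw [map_add, hx, hy, add_zero]
  | mul x y _ _ hx hy => rw [hD, hx, hy, zero_mul, mul_zero, add_zero]

theorem pr0_inj (Z : 𝒱.Obj) (n : ℕ) (h1 : (1 : W.H (powN Z n)) ≠ 0) :
    Function.Injective (W.map (pr0 Z n)) := by
  refine (injective_iff_map_eq_zero _).2 fun x hx => ?_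
  cases n with
  | zero =>
    have h2 : W.map (𝟙 Z) x = 0 := hx
    rw [W.map_id] at h2
    exact h2
  | succ n =>
    refine map_fst_inj (B := powN Z n) (fun h0 => h1 ?_) hx
    change (1 : W.H (Z.prod (powN Z n))) = 0
    rw [← map_one (W.map (snd Z (powN Z n))), h0, map_zero]

variable {Γ : Type} [Group Γ] {ι : Type} {χ : Γ →* W.Kˣ}

/-- The actions on all cohomologies are compatible with degrees and with pull-backs. -/
structure NatAct (A : ∀ Y : 𝒱.Obj, Γ →* (W.H Y ≃ₐ[W.K] W.H Y)) : Prop where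
  map : ∀ {Y Y' : 𝒱.Obj} (f : Y ⟶ Y') g b, A Y g (W.map f b) = W.map f (A Y' g b)
  deg : ∀ Y g i, ∀ a ∈ W.gr Y i, A Y g a ∈ W.gr Y i

variable {A : ∀ Y : 𝒱.Obj, Γ →* (W.H Y ≃ₐ[W.K] W.H Y)}

/-- The power with the action. -/
noncomputable def pw (hA : NatAct A) (Z : 𝒱.Obj) (n : ℕ) : DG W Γ :=
  ⟨⟨powN Z n, A (powN Z n)⟩, fun g i a ha => hA.deg _ g i a ha⟩

variable {X : ι → DG W Γ}

theorem occ_one (h : Hy χ X) {Z : DG W Γ} {n : ℕ} {c : Fin n → ι} {m j : ℕ}
    (hO : Occ h Z c m j) : (1 : W.H Z.X) ≠ 0 := by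
  obtain ⟨-, f, hf⟩ := hO
  intro h0
  apply hf.ne
  ext v
  rw [← one_mul (f v), h0, zero_mul]
  rfl

/-- Pull-backs of occurrences. -/
theorem occ_map (h : Hy χ X) {Z Z' : DG W Γ} (φ : Z'.X ⟶ Z.X)
    (hact : ∀ g x, Z'.act g (W.map φ x) = W.map φ (Z.act g x))
    (hinj : ∀ x, W.map φ x = 0 → x = 0) {n : ℕ} {c : Fin n → ι}
    {m j : ℕ} (hO : Occ h Z c m j) : Occ h Z' c m j := by
  obtain ⟨h2, f, hf⟩ := hO
  let F : W.H Z.X →ₗ[W.K] W.H Z'.X := (W.map φ).toLinearMap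
  have hF : ∀ x, F x = W.map φ x := fun x => rfl
  refine ⟨h2, F.compMultilinearMap f, ?_, fun v => ?_, fun h0 => hf.ne ?_, ?_⟩
  · obtain ⟨Δ, hΔ, h3⟩ := hf.tate
    refine ⟨Δ, hΔ, fun g hg v => ?_⟩
    rw [LinearMap.compMultilinearMap_apply, h3 g hg v, map_smul, hF]
    congr 1
    exact (hact g (f v)).symm
  · exact W.map_mem _ (hf.mem v)
  · ext v
    have h4 := congrArg (fun f => f v) h0
    exact hinj _ h4
  · intro p q hpq hc v G g b hb
    have h4 := hf.tr p q hpq hc v G g b hb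
    have h5 := congrArg F h4
    rw [map_sum, map_zero] at h5
    simp only [map_zsmul] at h5
    exact h5

theorem occ_succ (hA : NatAct A) (h : Hy χ X) {Z : 𝒱.Obj} {N : ℕ} {n : ℕ} {c : Fin n → ι}
    {m j : ℕ} (hO : Occ h (pw hA Z N) c m j) : Occ h (pw hA Z (N + 1)) c m j := by
  have h1 := occ_one h hO
  have hZ1 : (1 : W.H Z) ≠ 0 := by
    intro h0
    apply h1
    change (1 : W.H (powN Z N)) = 0
    rw [← map_one (W.map (pr0 Z N)), h0, map_zero]
  exact occ_map h (Z := pw hA Z N) (Z' := pw hA Z (N + 1)) (snd Z (powN Z N))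
    (fun g x => hA.map (snd Z (powN Z N)) g x) (fun x hx => map_snd_inj (A := Z) hZ1 hx) hO

theorem occ_le (hA : NatAct A) (h : Hy χ X) {Z : 𝒱.Obj} {N N' : ℕ} (hN : N ≤ N') {n : ℕ}
    {c : Fin n → ι} {m j : ℕ} (hO : Occ h (pw hA Z N) c m j) : Occ h (pw hA Z N') c m j := by
  induction hN with
  | refl => exact hO
  | step _ ih => exact occ_succ hA h ih

/-- The index occurs for some power of `Z`. -/
def Occurs (hA : NatAct A) (h : Hy χ X) (Z : 𝒱.Obj) (i : ι) : Prop :=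
  ∃ (N n : ℕ) (c : Fin n → ι) (m j : ℕ), Occ h (pw hA Z N) c m j ∧ ∃ s, c s = i

/-- **The bound for the indices which occur for some power of `Z`.** -/
theorem occurs_bound [IsAlgClosed W.K] [DecidableEq ι] (hA : NatAct A) (h : Hy χ X) (Z : 𝒱.Obj)
    (S₀ : Finset ι) (hocc : ∀ i ∈ S₀, Occurs hA h Z i) :
    ∑ i ∈ S₀, (Module.finrank W.K (transcendental W (X i).X) + 1).choose 2 ≤
      Module.finrank W.K (W.H Z) ^ 2 := by
  choose N n c m j hO s hs using hocc
  let M : ℕ := ∑ i ∈ S₀.attach, N i.1 i.2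
  have hM : ∀ (i : ι) (hi : i ∈ S₀), N i hi ≤ M := fun i hi =>
    Finset.single_le_sum (f := fun i : S₀ => N i.1 i.2) (fun _ _ => Nat.zero_le _)
      (Finset.mem_attach S₀ ⟨i, hi⟩)
  let S : Finset ι := S₀.attach.biUnion fun i => univ.image (c i.1 i.2)
  have hS : ∀ (i : ι) (hi : i ∈ S₀) (t : Fin (n i hi)), c i hi t ∈ S := by
    intro i hi t
    rw [Finset.mem_biUnion]
    exact ⟨⟨i, hi⟩, Finset.mem_attach _ _, Finset.mem_image_of_mem _ (Finset.mem_univ t)⟩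
  have hsub : S₀ ⊆ S := by
    intro i hi
    have h1 := hS i hi (s i hi)
    rwa [hs] at h1
  rcases S₀.eq_empty_or_nonempty with h0 | ⟨i₁, hi₁⟩
  · rw [h0, Finset.sum_empty]
    exact Nat.zero_le _
  have hone : (1 : W.H (powN Z M)) ≠ 0 := occ_one h (occ_le hA h (hM i₁ hi₁) (hO i₁ hi₁))
  have hX := h.comp (fun i : S => (i : ι)) Subtype.val_injective
  obtain ⟨G, g, b, -, hb⟩ := exists_bases hX
  have h1 := sum_sk_le (adFam hX) hX.alt (τ := lin (pw hA Z M).toGVar) (U := ⊤)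
    (fun g x y => map_mul ((pw hA Z M).act g) x y) hb (fun i => by
      obtain ⟨⟨i₀, hi₀⟩, -, h2⟩ := Finset.mem_biUnion.1 i.2
      obtain ⟨t, -, ht⟩ := Finset.mem_image.1 h2
      obtain ⟨-, f, hf⟩ := (occ_le hA h (hM i₀ hi₀) (hO i₀ hi₀)).restrict h S (hS i₀ hi₀)
      exact ⟨n i₀ hi₀, _, _, f, ⟨hf.tate, fun _ => Submodule.mem_top, hf.ne, hf.tr⟩, t,
        Subtype.ext ht⟩)
    (𝒞 := {C | ∃ f : powN Z M ⟶ powN Z M, C = (W.map f).toLinearMap})
    (by
      rintro _ ⟨f, rfl⟩ g x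
      exact hA.map f g x)
    (j := (W.map (pr0 Z M)).toLinearMap) (pr0_inj Z M hone)
    (fun g x => ⟨A Z g x, hA.map (pr0 Z M) g x⟩)
    (fun D hD hC h0 => der_pow_zero Z M D hD (fun f x => hC _ ⟨f, rfl⟩ x) h0)
  refine le_trans ?_ (le_trans (Finset.sum_le_sum fun i _ => choose_le_sk (hX.alt i) (hX.nd i)) h1)
  refine (Finset.sum_le_sum_of_subset hsub).trans (le_of_eq ?_)
  exact (Finset.sum_coe_sort S fun i =>
    (Module.finrank W.K (transcendental W (X i).X) + 1).choose 2).symm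

/-- The indices which occur for some power of `Z`. -/
theorem exists_all [IsAlgClosed W.K] [DecidableEq ι] (hA : NatAct A) (h : Hy χ X) (Z : 𝒱.Obj) :
    ∃ B : Finset ι, ∑ i ∈ B, (Module.finrank W.K (transcendental W (X i).X) + 1).choose 2 ≤
        Module.finrank W.K (W.H Z) ^ 2 ∧
      (∀ i ∈ B, ∃ N, StableBound χ (X i).toGVar (pw hA Z N).toGVar) ∧
      ∀ (N n : ℕ) (c : Fin n → ι) (m j : ℕ), Occ h (pw hA Z N) c m j → ∀ s, c s ∈ B := by
  let P : Set ι := {i | Occurs hA h Z i}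
  have hpos : ∀ i, 1 ≤ (Module.finrank W.K (transcendental W (X i).X) + 1).choose 2 := by
    intro i
    obtain ⟨F, x, hx, y, hy, hx0, -⟩ := h.hyp i
    have : Nontrivial (transcendental W (X i).X) :=
      ⟨⟨⟨x, hx⟩, 0, fun h => hx0 (congrArg Subtype.val h)⟩⟩
    have h1 : 0 < Module.finrank W.K (transcendental W (X i).X) := Module.finrank_pos
    exact Nat.choose_pos (by omega)
  have hfin : P.Finite := by
    by_contra hinf
    obtain ⟨t, ht, hcard⟩ := (Set.not_finite.1 hinf).exists_subset_card_eq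
      (Module.finrank W.K (W.H Z) ^ 2 + 1)
    have h1 := occurs_bound hA h Z t fun i hi => ht hi
    have h2 := Finset.card_nsmul_le_sum t
      (fun i => (Module.finrank W.K (transcendental W (X i).X) + 1).choose 2) 1 fun i _ => hpos i
    rw [smul_eq_mul, mul_one] at h2
    omega
  refine ⟨hfin.toFinset, occurs_bound hA h Z _ fun i hi => hfin.mem_toFinset.1 hi,
    fun i hi => ?_, fun N n c m j h s => hfin.mem_toFinset.2 ⟨N, n, c, m, j, h, s, rfl⟩⟩
  obtain ⟨N, n, c, m, j, hO, s, rfl⟩ := hfin.mem_toFinset.1 hi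
  exact ⟨N, Occ.stableBound h hO s⟩

/-- **Pairs of systems of classes, for all powers of `Z`.** The finite set does not depend on the
power of `Z`, on the systems and on the operator. -/
theorem sys_all [IsAlgClosed W.K] [DecidableEq ι] (hA : NatAct A) {X : ι → 𝒱.Obj}
    {Z : 𝒱.Obj} (hX : AdFamily χ fun i => (⟨X i, A (X i)⟩ : GVar W Γ))
    (htow : ∀ (n : ℕ) (L : List ι) (Y : GVar W Γ),
      IsTower (fun i => (⟨X i, A (X i)⟩ : GVar W Γ)) ⟨powN Z n, A (powN Z n)⟩ L Y →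
        Y = ⟨Y.X, A Y.X⟩) :
    ∃ B : Finset ι, ∑ i ∈ B, (trDim W (X i) + 1).choose 2 ≤ totDim W Z ^ 2 ∧
      (∀ i ∈ B, ∃ n, StableBound χ (⟨X i, A (X i)⟩ : GVar W Γ) ⟨powN Z n, A (powN Z n)⟩) ∧
      ∀ (n : ℕ) (ℳ 𝒩 : ESys W) (E : W.H (powN Z n) →ₗ[W.K] W.H (powN Z n)) (L : List ι),
        (∀ (Y : 𝒱.Obj) (E : W.H Y →ₗ[W.K] W.H Y), ∀ y ∈ ℳ.S Y E,
          TateComp χ (⟨Y, A Y⟩ : GVar W Γ) y) →
        (Sub ℳ 𝒩 (prodList X (powN Z n) L) (listOp X E L) ↔ ∀ L' : List ι, L'.Sublist L →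
          SmallList χ (fun i => (⟨X i, A (X i)⟩ : GVar W Γ)) ⟨powN Z n, A (powN Z n)⟩ B L' →
            Sub ℳ 𝒩 (prodList X (powN Z n) L') (listOp X E L')) := by
  let X' : ι → DG W Γ := fun i => ⟨⟨X i, A (X i)⟩, (hX.var i).act.galois.gr_mem⟩
  have hX' : Hy χ X' := ⟨fun i => isGalois (hX.var i).act.galois,
    fun i => (hX.var i).homEqNum, fun i => (hX.var i).act.middle, fun i => (hX.var i).act.odd,
    fun i => (hX.var i).act.irreducible, fun i => (hX.var i).act.hyperbolic, hX.adjoint⟩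
  obtain ⟨B, hBcard, hBs, hB⟩ := exists_all hA hX' Z
  refine ⟨B, hBcard, hBs, fun n ℳ 𝒩 E L hfix => ⟨fun hT L' hsub _ => ?_, fun hT => ?_⟩⟩
  · -- subproducts
    have hone : ∀ i, (1 : W.H (X i)) ≠ 0 := by
      intro i h0
      obtain ⟨F, x, hx, y, hy, hx0, -⟩ := hX'.hyp i
      apply hx0
      rw [← one_mul x]
      change (1 : W.H (X i)) * x = 0
      rw [h0, zero_mul]
    exact sys_sublist hX'.hom hone hsub hT
  · -- reduction to small lists
    have e : L = (List.finRange L.length).map L.get := by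
      rw [← List.ofFn_eq_map, List.ofFn_get]
    have h1 := tow_list (X' := X') (Z' := pw hA Z n) L.get E (fun Y E => Sub ℳ 𝒩 Y E)
      (List.finRange L.length)
    rw [← e] at h1
    refine h1.1 (main_sys hX' (hB n) L.get (List.nodup_finRange _) (fun y hy => ?_)
      fun l' hl' hsmall => ?_)
    · have h2 := htow n _ _ (isTower_tow X' (pw hA Z n) L.get (List.finRange L.length))
      have h3 : ∀ (Y : GVar W Γ), Y = ⟨Y.X, A Y.X⟩ → ∀ (E : W.H Y.X →ₗ[W.K] W.H Y.X),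
          ∀ y ∈ ℳ.S Y.X E, TateComp χ Y y := by
        intro Y hY
        rw [hY]
        exact hfix Y.X
      exact h3 _ h2 _ y hy
    · have h2 := (tow_list (X' := X') (Z' := pw hA Z n) L.get E (fun Y E => Sub ℳ 𝒩 Y E) l').2
      refine h2 (hT _ ?_ hsmall)
      have h3 := hl'.map L.get
      rwa [← e] at h3

end Pool.Agent.X227.UP
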