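import Pool.Agent.X227.UP.MT
import Pool.Agent.X227.UP.Gen

/-!
# All powers at once: the Mumford-Tate conjecture, with the bound by generators
-/

open CategoryTheory AlgebraicGeometry

universe u

namespace Pool.Agent.X227.UP

open Pool.Agent.H914 Pool.Agent.H914.VarClass Pool.Agent.H914.VarClass.Obj
  Pool.Agent.H914.WeilCohomology Pool.Agent.Y132.AH Pool.Agent.X227.MS Pool.Agent.H281R3.HT
  Pool.Agent.W552 Pool.Agent.TH125.Gal Pool.Agent.Y132.AF Pool.Agent.X227.MM Pool.Agent.X227.NP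

variable {k : Type u} [Field k] {𝒱 : VarClass k} {ops : CycleOps 𝒱} {ι : Type}
  {W : WeilCohomology.{u, 0} ops} {Γ : Type} [Group Γ] (Ψ : HodgeData W) (G : GaloisData W Γ)

/-- **The Mumford-Tate conjecture, all powers at once.** -/
theorem mt_gen [IsAlgClosed W.K] [DecidableEq ι] {X : ι → 𝒱.Obj} (Z : 𝒱.Obj)
    (hX : TwoFamily Ψ G X) :
    ∃ B : Finset ι, (∀ S, GenIn W Z S → ∑ i ∈ B, (trDim W (X i) + 1).choose 2 ≤
        2 * (∑ m ∈ S, Pool.Agent.Y132.AH.betti W Z m) ^ 2) ∧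
      (∀ i ∈ B, ¬(MonApart G (X i) Z ∧ TypeSep Ψ (X i) Z)) ∧
      (∀ (n : ℕ) (L : List ι), MumfordTate Ψ G (prodList X (powN Z n) L) ↔
        ∀ L' : List ι, L'.Sublist L → SmallDim W X (powN Z n) B L' →
          MumfordTate Ψ G (prodList X (powN Z n) L')) ∧
      (∀ (n m : ℕ) (V : Set (W.H (powN Z n))), InDegree V m → ∀ L : List ι,
        (MTIn Ψ G X V L ↔ ∀ L' : List ι, L'.Sublist L → SmallDim W X (powN Z n) B L' →
          MTIn Ψ G X V L')) := by
  have hX' := bigFamily_ad G hX.middle hX.gal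
  obtain ⟨B, h1, h2, -, -, h3⟩ := gen_gal G Z hX'
  obtain ⟨B', h1', h2', -, h3'⟩ := gen_hodge Ψ Z hX.sp
  have hS : ∀ {n : ℕ} {L' : List ι}, SmallDim W X (powN Z n) B L' →
      SmallDim W X (powN Z n) (B ∪ B') L' := fun h => smallDim_mono Finset.subset_union_left h
  have hS' : ∀ {n : ℕ} {L' : List ι}, SmallDim W X (powN Z n) B' L' →
      SmallDim W X (powN Z n) (B ∪ B') L' := fun h => smallDim_mono Finset.subset_union_right h
  refine ⟨B ∪ B', fun S hS => ?_, fun i hi h => ?_, fun n L => ?_, fun n m V hV L => ?_⟩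
  · have h4 := Finset.sum_union_inter (s₁ := B) (s₂ := B')
      (f := fun i => (trDim W (X i) + 1).choose 2)
    have h5 := h1 S hS
    have h5' := h1' S hS
    omega
  · rcases Finset.mem_union.1 hi with hi | hi
    · exact h2 i hi h.1
    · exact h2' i hi h.2
  · have h4 := h3 n (ofSys (tateSys G)) (ofSys (gcls_hodge Ψ).sys) LinearMap.id L
      fun Y E y hy => tateComp_tate G hy.1
    have h4' := h3' n (ofSys (gcls_hodge Ψ).sys) (ofSys (tateSys G)) LinearMap.id L
      fun Y E y hy => hodgeComp_span Ψ hy.1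
    simp only [listOp_id] at h4 h4'
    constructor
    · intro h L' hsub _
      rw [mtAll_iff] at h ⊢
      have h5 := sys_sublist (ℳ := ofSys (tateSys G)) (𝒩 := ofSys (gcls_hodge Ψ).sys)
        (E := (LinearMap.id : W.H (powN Z n) →ₗ[W.K] W.H (powN Z n)))
        (fun i => (hX.middle i).homEqNum) (sp_one hX.sp) hsub
      have h5' := sys_sublist (ℳ := ofSys (gcls_hodge Ψ).sys) (𝒩 := ofSys (tateSys G))
        (E := (LinearMap.id : W.H (powN Z n) →ₗ[W.K] W.H (powN Z n)))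
        (fun i => (hX.middle i).homEqNum) (sp_one hX.sp) hsub
      rw [listOp_id, listOp_id] at h5 h5'
      exact ⟨h5 h.1, h5' h.2⟩
    · intro h
      rw [mtAll_iff]
      exact ⟨h4.2 fun L' hsub hs => ((mtAll_iff Ψ G _).1 (h L' hsub (hS hs))).1,
        h4'.2 fun L' hsub hs => ((mtAll_iff Ψ G _).1 (h L' hsub (hS' hs))).2⟩
  · obtain ⟨U, hU, rfl⟩ := hV
    obtain ⟨F, hF1, hF2, hF3⟩ := exists_proj hU
    have e := fun L => mtIn_iff Ψ G (X := X) hF1 hF2 hF3 L
    rw [e L]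
    constructor
    · rintro ⟨ha, hb⟩ L' hsub _
      rw [e L']
      exact ⟨sys_sublist (fun i => (hX.middle i).homEqNum) (sp_one hX.sp) hsub ha,
        sys_sublist (fun i => (hX.middle i).homEqNum) (sp_one hX.sp) hsub hb⟩
    · intro h
      have h4 := h3 n (ofSys (tateSys G)) (ofSys (gcls_hodge Ψ).sys) F L
        fun Y E y hy => tateComp_tate G hy.1
      have h4' := h3' n (ofSys (gcls_hodge Ψ).sys) (ofSys (tateSys G)) F L
        fun Y E y hy => hodgeComp_span Ψ hy.1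
      exact ⟨h4.2 fun L' hsub hs => ((e L').1 (h L' hsub (hS hs))).1,
        h4'.2 fun L' hsub hs => ((e L').1 (h L' hsub (hS' hs))).2⟩

end Pool.Agent.X227.UP
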