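import Pool.Agent.X227.UP.Gen
import Pool.Agent.X227.NP.Main
import Pool.Agent.X227.NP.Fam

/-!
# All powers at once: noncommutative conjectures
-/

open CategoryTheory AlgebraicGeometry

universe u

namespace Pool.Agent.X227.UP

open Pool.Agent.H914 Pool.Agent.H914.VarClass Pool.Agent.H914.VarClass.Obj
  Pool.Agent.H914.WeilCohomology Pool.Agent.Y132.AH Pool.Agent.X227.MS Pool.Agent.H281R3.HT
  Pool.Agent.W552 Pool.Agent.TH125.Gal Pool.Agent.Y132.AF Pool.Agent.X227.MM Pool.Agent.X227.NP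

variable {k : Type u} [Field k] {𝒱 : VarClass k} {ops : CycleOps 𝒱} {ι : Type}
  {W : WeilCohomology.{u, 0} ops} {Γ : Type} [Group Γ]

/-- **The noncommutative variational Hodge conjecture**, all powers at once. -/
theorem ncv_gen [IsAlgClosed W.K] [DecidableEq ι] (G : GaloisData W Γ) {X : ι → 𝒱.Obj}
    (Z : 𝒱.Obj) (hX : ∀ i, OddMiddle W (X i)) (hG : BigFamily G X) :
    ∃ B : Finset ι, GenBound W X Z B ∧ (∀ i ∈ B, ¬MonApart G (X i) Z) ∧
      ∀ (D : FamData W) (n : ℕ) (e : W.H ((powN Z n).prod (powN Z n))), Projector (powN Z n) e →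
        ∀ L : List ι, NCVar D G (prodList X (powN Z n) L) (timesOp X e L) ↔
          ∀ L' : List ι, L'.Sublist L → SmallDim W X (powN Z n) B L' →
            NCVar D G (prodList X (powN Z n) L') (timesOp X e L') := by
  obtain ⟨B, h1, h2, -, -, h3⟩ := gen_gal G Z (bigFamily_ad G hX hG)
  refine ⟨B, h1, h2, fun D n e he L => ?_⟩
  have h4 := h3 n (ofSys (gcls_flat D G).sys) (ofSys gcls_alg.sys) (ncOp e) L
    fun Y E y hy => tateComp_span D G hy.1
  rw [ncv_iff D G X he, h4]
  exact forall_congr' fun L' => forall_congr' fun _ => forall_congr' fun _ =>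
    (ncv_iff D G X he L').symm

/-- **The noncommutative standard conjecture D**, all powers at once. -/
theorem ncd_gen [IsAlgClosed W.K] [DecidableEq ι] (Ψ : HodgeData W) {X : ι → 𝒱.Obj}
    (Z : 𝒱.Obj) (hX : SpFamily Ψ X) :
    ∃ B : Finset ι, GenBound W X Z B ∧ (∀ i ∈ B, ¬TypeSep Ψ (X i) Z) ∧
      ∀ (n : ℕ) (e : W.H ((powN Z n).prod (powN Z n))), Projector (powN Z n) e →
        ∀ L : List ι, NCD W (prodList X (powN Z n) L) (timesOp X e L) ↔
          ∀ L' : List ι, L'.Sublist L → SmallDim W X (powN Z n) B L' →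
            NCD W (prodList X (powN Z n) L') (timesOp X e L') := by
  obtain ⟨B, h1, h2, -, h3⟩ := gen_hodge Ψ Z hX
  refine ⟨B, h1, h2, fun n e he L => ?_⟩
  have h4 := h3 n (radSys W) (botSys W) (ncOp e) L fun Y E y hy => hodgeComp_alg Ψ hy.1.1
  rw [ncd_iff X he, nc_list X (projector_iff he), h4]
  exact forall_congr' fun L' => forall_congr' fun _ => forall_congr' fun _ => by
    rw [ncd_iff X he, nc_list X (projector_iff he)]

end Pool.Agent.X227.UP
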