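import Pool.Agent.Y132.AH.GDefs
import Pool.Agent.X227.UP.FDefs

/-!
# Varieties whose motives are built from each other: definitions
-/

open CategoryTheory AlgebraicGeometry

universe u

namespace Pool.Agent.X227.UP

open Pool.Agent.H914 Pool.Agent.H914.VarClass Pool.Agent.H914.VarClass.Obj Pool.Agent.Y132.AH

section Alg

variable {K A B C D : Type} [Field K] [Ring A] [Algebra K A] [Ring B] [Algebra K B] [Ring C]
  [Algebra K C] [Ring D] [Algebra K D]

/-- The identity of `A` is a finite sum of compositions `A → B → A` of operators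
`y ↦ s' (b * p' (s (a * p y)))` with `a` in the span of the `M j` and `b` in the span of the `M' j`. -/
def FactorsThrough (p : A →ₐ[K] C) (s : C →ₗ[K] B) (p' : B →ₐ[K] D) (s' : D →ₗ[K] A)
    (M : ℕ → Set C) (M' : ℕ → Set D) : Prop :=
  ∃ (N : ℕ) (a : Fin N → C) (b : Fin N → D), (∀ i, a i ∈ Submodule.span K (⋃ j, M j)) ∧
    (∀ i, b i ∈ Submodule.span K (⋃ j, M' j)) ∧
      ∀ x, ∑ i, corrOp p' s' (b i) (corrOp p s (a i) x) = x

end Alg

variable {k : Type u} [Field k] {𝒱 : VarClass k} {ops : CycleOps 𝒱}

/-- The motive of `A` is a direct summand of a finite sum of Tate twists of the motive of `X`: the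
identity of `H(A)` is a sum of compositions of algebraic correspondences from `A` to `X` and back. -/
def SummandOf (W : WeilCohomology.{u, 0} ops) (A X : 𝒱.Obj) : Prop :=
  FactorsThrough (W.map (fst A X)) (W.push (snd A X)) (W.map (fst X A)) (W.push (snd X A))
    (algClasses W (A.prod X)) (algClasses W (X.prod A))

/-- Each of the motives of `A` and `X` is a direct summand of a sum of Tate twists of the motive of a
power of the other one. -/
def SamePowers (W : WeilCohomology.{u, 0} ops) (A X : 𝒱.Obj) : Prop :=
  ∃ m m' : ℕ, SummandOf W A (powN X m) ∧ SummandOf W X (powN A m')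

end Pool.Agent.X227.UP
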