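import Pool.Agent.X227.UP.Two
import Pool.Agent.X227.UP.RtDefs

/-!
# Varieties whose motives are built from each other
-/

open CategoryTheory AlgebraicGeometry
open Pool.Agent.Y132.EP (idm map_idm)

universe u

namespace Pool.Agent.X227.UP

open Pool.Agent.H914 Pool.Agent.H914.VarClass Pool.Agent.H914.VarClass.Obj
  Pool.Agent.H914.WeilCohomology Pool.Agent.Y132.AH Pool.Agent.X227.MS Pool.Agent.H281R3.HT
  Pool.Agent.W552 Pool.Agent.TH125.Gal Pool.Agent.Y132.AF Pool.Agent.X227.MM Pool.Agent.X227.NP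

variable {k : Type u} [Field k] {𝒱 : VarClass k} {ops : CycleOps 𝒱} {ι : Type}
  {W : WeilCohomology.{u, 0} ops} {Γ : Type} [Group Γ]

theorem sys_corr (𝒬 : ClassSystem W) {X Y : 𝒱.Obj} {c : W.H (X.prod Y)}
    (hc : c ∈ algSpan W (X.prod Y)) {x : W.H X} (hx : x ∈ 𝒬.C X) :
    corrOp (W.map (fst X Y)) (W.push (snd X Y)) c x ∈ 𝒬.C Y :=
  𝒬.push_mem _ (𝒬.mul_mem (𝒬.alg_le _ hc) (𝒬.map_mem _ hx))

/-- The operator `1 × c` on `H(P × X)`. -/
noncomputable def sideOp (P : 𝒱.Obj) {X Y : 𝒱.Obj} (c : W.H (X.prod Y)) :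
    W.H (P.prod X) →ₗ[W.K] W.H (P.prod Y) :=
  corrOp (W.map (idm P (fst X Y))) (W.push (idm P (snd X Y)))
    (W.map (snd P (X.prod Y)) c)

theorem sys_side (𝒬 : ClassSystem W) (P : 𝒱.Obj) {X Y : 𝒱.Obj} {c : W.H (X.prod Y)}
    (hc : c ∈ algSpan W (X.prod Y)) {x : W.H (P.prod X)} (hx : x ∈ 𝒬.C (P.prod X)) :
    sideOp P c x ∈ 𝒬.C (P.prod Y) :=
  𝒬.push_mem _ (𝒬.mul_mem (𝒬.map_mem _ (𝒬.alg_le _ hc)) (𝒬.map_mem _ hx))

theorem side_ext (P : 𝒱.Obj) {X Y : 𝒱.Obj} {c : W.H (X.prod Y)}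
    (hc : c ∈ algSpan W (X.prod Y)) (p : W.H P) (x : W.H X) :
    sideOp P c (W.map (fst P X) p * W.map (snd P X) x) = W.map (fst P Y) p *
      W.map (snd P Y) (corrOp (W.map (fst X Y)) (W.push (snd X Y)) c x) := by
  change W.push (idm P (snd X Y)) (W.map (snd P (X.prod Y)) c *
    W.map (idm P (fst X Y)) (W.map (fst P X) p * W.map (snd P X) x)) = _
  rw [map_idm, ← mul_assoc, alg_comm (algSpan_map _ hc), mul_assoc, ← map_mul,
    Pool.Agent.X227.DN.push_idm]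
  rfl

/-- All classes of the first system on `Y` are in the second one, then the same holds for `X`, also
after a product with any variety. -/
structure Dom (W : WeilCohomology.{u, 0} ops) (Y X : 𝒱.Obj) : Prop where
  base : ∀ ℳ 𝒬 : ClassSystem W, ℳ.C Y ≤ 𝒬.C Y → ℳ.C X ≤ 𝒬.C X
  side : ∀ (ℳ 𝒬 : ClassSystem W) (P : 𝒱.Obj), ℳ.C (P.prod Y) ≤ 𝒬.C (P.prod Y) →
    ℳ.C (P.prod X) ≤ 𝒬.C (P.prod X)

theorem sys_iso (ℳ 𝒬 : ClassSystem W) {A B : 𝒱.Obj} (e : A ≅ B) (h : ℳ.C A ≤ 𝒬.C A) :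
    ℳ.C B ≤ 𝒬.C B := by
  intro x hx
  have h1 : W.map e.inv (W.map e.hom x) = x := by
    rw [← W.map_comp, e.inv_hom_id, W.map_id]
  rw [← h1]
  exact 𝒬.map_mem _ (h (ℳ.map_mem _ hx))

theorem Dom.refl (X : 𝒱.Obj) : Dom W X X := ⟨fun _ _ h => h, fun _ _ _ h => h⟩

theorem Dom.trans {X Y Z : 𝒱.Obj} (h : Dom W X Y) (h' : Dom W Y Z) : Dom W X Z :=
  ⟨fun ℳ 𝒬 h1 => h'.base ℳ 𝒬 (h.base ℳ 𝒬 h1), fun ℳ 𝒬 P h1 => h'.side ℳ 𝒬 P (h.side ℳ 𝒬 P h1)⟩

theorem Dom.iso {X Y : 𝒱.Obj} (e : X ≅ Y) : Dom W X Y :=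
  ⟨fun ℳ 𝒬 h => sys_iso ℳ 𝒬 e h, fun ℳ 𝒬 P h => sys_iso ℳ 𝒬 (prodIso (Iso.refl P) e) h⟩

theorem SummandOf.dom {A X : 𝒱.Obj} (h : SummandOf W A X) : Dom W X A := by
  obtain ⟨N, a, b, ha, hb, hab⟩ := h
  refine ⟨fun ℳ 𝒬 h1 x hx => ?_, fun ℳ 𝒬 P h1 x hx => ?_⟩
  · rw [← hab x]
    exact Submodule.sum_mem _ fun s _ => sys_corr 𝒬 (hb s) (h1 (sys_corr ℳ (ha s) hx))
  · have h2 : ∑ s, sideOp P (b s) (sideOp P (a s) x) = x := by
      refine kun_ext (L := fun x => ∑ s, sideOp P (b s) (sideOp P (a s) x)) (L' := fun x => x)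
        (fun x y => ?_) (fun x y => rfl) (fun p y => ?_) x
      · beta_reduce
        rw [← Finset.sum_add_distrib]
        exact Finset.sum_congr rfl fun s _ => by rw [map_add, map_add]
      · beta_reduce
        have h3 : ∀ s, sideOp P (b s) (sideOp P (a s) (W.map (fst P A) p * W.map (snd P A) y)) =
            W.map (fst P A) p * W.map (snd P A) (corrOp (W.map (fst X A)) (W.push (snd X A)) (b s)
              (corrOp (W.map (fst A X)) (W.push (snd A X)) (a s) y)) := fun s => by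
          rw [side_ext P (ha s), side_ext P (hb s)]
        rw [Finset.sum_congr rfl fun s _ => h3 s, ← Finset.mul_sum, ← map_sum, hab]
    rw [← h2]
    exact Submodule.sum_mem _ fun s _ => sys_side 𝒬 P (hb s) (h1 (sys_side ℳ P (ha s) hx))

theorem Dom.left (R : 𝒱.Obj) {X Y : 𝒱.Obj} (h : Dom W X Y) : Dom W (R.prod X) (R.prod Y) :=
  ⟨fun ℳ 𝒬 h1 => h.side ℳ 𝒬 R h1, fun ℳ 𝒬 P h1 => sys_iso ℳ 𝒬 (assocIso P R Y)
    (h.side ℳ 𝒬 (P.prod R) (sys_iso ℳ 𝒬 (assocIso P R X).symm h1))⟩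

/-- Exchange of two factors. -/
noncomputable def swapIso (A B : 𝒱.Obj) : A.prod B ≅ B.prod A where
  hom := Obj.lift (snd A B) (fst A B)
  inv := Obj.lift (snd B A) (fst B A)
  hom_inv_id := by
    apply prod_hom_ext
    · rw [Category.assoc, lift_fst, lift_snd, Category.id_comp]
    · rw [Category.assoc, lift_snd, lift_fst, Category.id_comp]
  inv_hom_id := by
    apply prod_hom_ext
    · rw [Category.assoc, lift_fst, lift_snd, Category.id_comp]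
    · rw [Category.assoc, lift_snd, lift_fst, Category.id_comp]

theorem Dom.right (R : 𝒱.Obj) {X Y : 𝒱.Obj} (h : Dom W X Y) : Dom W (X.prod R) (Y.prod R) :=
  ((Dom.iso (swapIso X R)).trans (h.left R)).trans (Dom.iso (swapIso R Y))

theorem dom_pow (X : ι → 𝒱.Obj) (Z : 𝒱.Obj) (L : List ι) (i : ι) (m : ℕ) :
    ∃ L' : List ι, (∀ j ∈ L', j ∈ i :: L) ∧
      Nonempty (prodList X Z L' ≅ (powN (X i) m).prod (prodList X Z L)) := by
  induction m with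
  | zero => exact ⟨i :: L, fun j hj => hj, ⟨Iso.refl _⟩⟩
  | succ m ih =>
    obtain ⟨L', h1, ⟨e⟩⟩ := ih
    refine ⟨i :: L', fun j hj => ?_, ⟨prodIso (Iso.refl (X i)) e ≪≫
      (assocIso (X i) (powN (X i) m) (prodList X Z L)).symm⟩⟩
    rcases List.mem_cons.1 hj with rfl | hj
    · exact List.mem_cons_self
    · exact h1 j hj

theorem dom_list {X A : ι → 𝒱.Obj} (h : ∀ i, ∃ m, Dom W (powN (X i) m) (A i)) (Z : 𝒱.Obj)
    (L : List ι) : ∃ L' : List ι, (∀ j ∈ L', j ∈ L) ∧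
      Dom W (prodList X Z L') (prodList A Z L) := by
  induction L with
  | nil => exact ⟨[], fun j hj => hj, Dom.refl _⟩
  | cons i L ih =>
    obtain ⟨L0, h0, hd⟩ := ih
    obtain ⟨m, hm⟩ := h i
    obtain ⟨L', h1, ⟨e⟩⟩ := dom_pow X Z L0 i m
    refine ⟨L', fun j hj => ?_, (Dom.iso e).trans ((hm.right _).trans (hd.left _))⟩
    rcases List.mem_cons.1 (h1 j hj) with rfl | hj
    · exact List.mem_cons_self
    · exact List.mem_cons_of_mem _ (h0 j hj)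

/-- **Families of varieties with the same motives**: if the conjecture for the products of powers of `Z` and
the `X i` is controlled by the set `B`, then so is the conjecture for the `A i`. -/
theorem same_gen {ℳ 𝒬 : ClassSystem W} {X A : ι → 𝒱.Obj} (hA : ∀ i, SamePowers W (A i) (X i))
    {Z : 𝒱.Obj} {B : Finset ι}
    (hred : ∀ (n : ℕ) (L : List ι), (∀ L' : List ι, L'.Sublist L → (∀ i ∈ L', i ∈ B) →
      ℳ.C (prodList X (powN Z n) L') ≤ 𝒬.C (prodList X (powN Z n) L')) →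
      ℳ.C (prodList X (powN Z n) L) ≤ 𝒬.C (prodList X (powN Z n) L)) (S : Set ι) :
    (∀ Y ∈ generated Z A S, ℳ.C Y ≤ 𝒬.C Y) ↔
      ∀ Y ∈ generated Z A (S ∩ {i | i ∈ B}), ℳ.C Y ≤ 𝒬.C Y := by
  constructor
  · rintro h Y ⟨n, L, hL, e⟩
    exact h Y ⟨n, L, fun i hi => (hL i hi).1, e⟩
  · rintro h Y ⟨n, L, hL, ⟨e⟩⟩
    refine sys_iso ℳ 𝒬 e.symm ?_
    obtain ⟨L1, h1, hd1⟩ := dom_list (W := W) (X := X) (A := A)
      (fun i => (hA i).imp fun m hm => hm.choose_spec.1.dom) (powN Z n) L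
    refine hd1.base ℳ 𝒬 (hred n L1 fun L2 h2 h2' => ?_)
    obtain ⟨L3, h3, hd3⟩ := dom_list (W := W) (X := A) (A := X)
      (fun i => by
        obtain ⟨m, m', -, hm'⟩ := hA i
        exact ⟨m', hm'.dom⟩) (powN Z n) L2
    refine hd3.base ℳ 𝒬 (h _ ⟨n, L3, fun i hi => ⟨?_, h2' i (h3 i hi)⟩, ⟨Iso.refl _⟩⟩)
    exact hL i (h1 i (h2.subset (h3 i hi)))

theorem tate_le (G : GaloisData W Γ) (𝒬 : ClassSystem W) (Y : 𝒱.Obj) :
    (gcls_tate G).sys.C Y ≤ 𝒬.C Y ↔ ∀ j c, IsTate G Y j c → c ∈ 𝒬.C Y := by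
  rw [GCls.sys_C, Submodule.span_le]
  exact ⟨fun h j c hc => h ⟨j, hc⟩, fun h c ⟨j, hj⟩ => h j c hj⟩

/-- **The Tate conjecture for families of varieties with the same motives.** -/
theorem tate_same [IsAlgClosed W.K] [DecidableEq ι] (G : GaloisData W Γ) {X A : ι → 𝒱.Obj}
    (hA : ∀ i, SamePowers W (A i) (X i)) (Z : 𝒱.Obj) (hX : ∀ i, OddMiddle W (X i))
    (hG : BigFamily G X) :
    ∃ B : Finset ι, GenBound W X Z B ∧ (∀ i ∈ B, ¬MonApart G (X i) Z) ∧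
      (∀ i ∈ B, ¬SlopeSep G (X i) Z) ∧
      ∀ S : Set ι, (∀ Y ∈ generated Z A S, Tate G Y) ↔
        ∀ Y ∈ generated Z A (S ∩ {i | i ∈ B}), Tate G Y := by
  obtain ⟨B, h1, h2, h3, h4, -⟩ := gen_gal G Z (bigFamily_ad G hX hG)
  refine ⟨B, h1, h2, h3, fun S => ?_⟩
  have h5 : ∀ Y : 𝒱.Obj, Tate G Y ↔ (gcls_tate G).sys.C Y ≤ (algSys W).C Y := fun Y => by
    rw [tate_le, ← tateIn_alg]
    rfl
  have h6 := h4 (isPair_lin (gcls_tate G) (algSys W)) fun Y E y hy => tateComp_tate G (by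
    have h5 := hy.1
    rwa [GCls.sys_C] at h5)
  have h7 := same_gen (ℳ := (gcls_tate G).sys) (𝒬 := algSys W) hA (Z := Z) (B := B)
    (fun n L hL => (tate_le G _ _).2 ((h6.small n L).2 fun L' ha hb =>
      (tate_le G _ _).1 (hL L' ha hb.mem))) S
  simp only [h5]
  exact h7

end Pool.Agent.X227.UP
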