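import Pool.Agent.X227.UP.Rt
import Pool.Agent.X227.UP.Abs

/-!
# Varieties whose motives are built from each other: absolute Hodge classes
-/

open CategoryTheory AlgebraicGeometry

universe u

namespace Pool.Agent.X227.UP

open Pool.Agent.H914 Pool.Agent.H914.VarClass Pool.Agent.H914.VarClass.Obj
  Pool.Agent.H914.WeilCohomology Pool.Agent.Y132.AH Pool.Agent.X227.MS Pool.Agent.H281R3.HT
  Pool.Agent.W552 Pool.Agent.TH125.Gal Pool.Agent.Y132.AF Pool.Agent.X227.MM Pool.Agent.X227.NP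

variable {k : Type u} [Field k] {𝒱 : VarClass k} {ops : CycleOps 𝒱} {ι : Type}
  {W : WeilCohomology.{u, 0} ops} {Γ : Type} [Group Γ]

theorem sub_id (ℳ 𝒬 : ClassSystem W) (Y : 𝒱.Obj) :
    Sub (ofSys ℳ) (ofSys 𝒬) Y LinearMap.id ↔ ℳ.C Y ≤ 𝒬.C Y :=
  ⟨fun h y hy => (h y ⟨hy, mem_fixed.2 rfl⟩).1, fun h _ hy => ⟨h hy.1, hy.2⟩⟩

theorem pair_same [DecidableEq ι] {ℳ 𝒬 : ClassSystem W} {Conj : 𝒱.Obj → Prop}
    (h : IsPair (ofSys ℳ) (ofSys 𝒬) Conj) {X A : ι → 𝒱.Obj}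
    (hA : ∀ i, SamePowers W (A i) (X i)) {Z : 𝒱.Obj} {B : Finset ι}
    (hc : Controls W X Z B Conj) (S : Set ι) :
    (∀ Y ∈ generated Z A S, Conj Y) ↔ ∀ Y ∈ generated Z A (S ∩ {i | i ∈ B}), Conj Y := by
  have h5 : ∀ Y : 𝒱.Obj, Conj Y ↔ ℳ.C Y ≤ 𝒬.C Y := fun Y => by rw [h.iff, sub_id]
  have h7 := same_gen (ℳ := ℳ) (𝒬 := 𝒬) hA (Z := Z) (B := B)
    (fun n L hL => (h5 _).1 ((hc.small n L).2 fun L' ha hb => (h5 _).2 (hL L' ha hb.mem))) S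
  simp only [h5]
  exact h7

/-- **Absolute Hodge classes, families of varieties with the same motives.** -/
theorem abs_same [IsAlgClosed W.K] [DecidableEq ι] (Ψ : HodgeData W) (E : Embeddings W)
    {X A : ι → 𝒱.Obj} (hA : ∀ i, SamePowers W (A i) (X i)) (Z : 𝒱.Obj) (hX : SpFamily Ψ X) :
    ∃ B : Finset ι, GenBound W X Z B ∧ (∀ i ∈ B, ¬TypeSep Ψ (X i) Z) ∧
      ∀ S : Set ι, (∀ Y ∈ generated Z A S, AllAbsolute Ψ E Y) ↔
        ∀ Y ∈ generated Z A (S ∩ {i | i ∈ B}), AllAbsolute Ψ E Y := by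
  obtain ⟨B, h1, h2, h3, -⟩ := gen_hodge Ψ Z hX
  have h4 := h3 (isPair_abs Ψ E) fun Y F y hy => hodgeComp_span Ψ hy.1
  exact ⟨B, h1, h2, pair_same (isPair_abs Ψ E) hA h4⟩

end Pool.Agent.X227.UP
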