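import Pool.Agent.X227.UP.ExDefs
import Pool.Agent.X227.NP.TwoDefs
import Pool.Agent.Y132.AH.Sys

/-!
# Galois invariants and any system of classes: definitions
-/

open CategoryTheory AlgebraicGeometry

universe u

namespace Pool.Agent.X227.UP

open Pool.Agent.H914 Pool.Agent.H914.VarClass Pool.Agent.H914.VarClass.Obj
  Pool.Agent.H914.WeilCohomology Pool.Agent.Y132.AH Pool.Agent.X227.NP

section Alg

variable {K A Γ : Type} [Field K] [Ring A] [Algebra K A] [Group Γ]

/-- The elements of degree `2 j` of `V` on which the whole group acts by `χ ^ j` are in `M`, for all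
`j`. -/
def ExactIn {χ : Γ →* Kˣ} {gr : ℕ → Submodule K A} {n : ℕ} {tr : A →ₗ[K] K} {Z : ℕ → Set A}
    (G : GalAlg Γ χ gr n tr Z) (M : Submodule K A) (V : Set A) : Prop :=
  ∀ j, ∀ c ∈ V, ExactCls χ gr G.act j c → c ∈ M

end Alg

variable {k : Type u} [Field k] {𝒱 : VarClass k} {ops : CycleOps 𝒱}
  {W : WeilCohomology.{u, 0} ops} {Γ : Type} [Group Γ]

/-- The classes of degree `2 j` in `H(P) ⊗ V`, `P` the product over the list, on which the whole group
acts by `χ ^ j`, are in the system `𝒬`, for all `j`. -/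
def InvIn (G : GaloisData W Γ) (𝒬 : ClassSystem W) {ι : Type} (X : ι → 𝒱.Obj) {Z : 𝒱.Obj}
    (V : Set (W.H Z)) (L : List ι) : Prop :=
  ExactIn (G.on (prodList X Z L)) (𝒬.C (prodList X Z L)) (overSet X V L)

end Pool.Agent.X227.UP
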