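import Pool.Agent.X227.UP.Exact
import Pool.Agent.X227.UP.STDefs

/-!
# All powers at once: Galois invariants and any system of classes
-/

open CategoryTheory AlgebraicGeometry

universe u

namespace Pool.Agent.X227.UP

open Pool.Agent.H914 Pool.Agent.H914.VarClass Pool.Agent.H914.VarClass.Obj
  Pool.Agent.H914.WeilCohomology Pool.Agent.Y132.AH Pool.Agent.X227.MS Pool.Agent.H281R3.HT
  Pool.Agent.W552 Pool.Agent.TH125.Gal Pool.Agent.Y132.AF Pool.Agent.X227.MM Pool.Agent.X227.NP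

variable {k : Type u} [Field k] {𝒱 : VarClass k} {ops : CycleOps 𝒱} {ι : Type}
  {W : WeilCohomology.{u, 0} ops} {Γ : Type} [Group Γ]

theorem invIn_iff {G : GaloisData W Γ} (hG : FixesCycles G) (𝒬 : ClassSystem W)
    {X : ι → 𝒱.Obj} {Z : 𝒱.Obj} {V : Submodule W.K (W.H Z)}
    {F : W.H Z →ₗ[W.K] W.H Z} (h1 : HomOp F) (h2 : ∀ v ∈ V, F v = v) (h3 : ∀ y, F y ∈ V)
    (L : List ι) : InvIn G 𝒬 X (V : Set (W.H Z)) L ↔
      Sub (ofSys (gcls_exact hG).sys) (ofSys 𝒬) (prodList X Z L) (listOp X F L) := by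
  rw [← lin_iff (gcls_exact hG)
    (fun Y j => ⟨Submodule.zero_mem _, fun g => by rw [map_zero, smul_zero]⟩)
    (fun Y j r c hc => ⟨Submodule.smul_mem _ _ hc.1, fun g => by
      rw [map_smul, hc.2, smul_comm]⟩) 𝒬 (homOp_list X h1 L)]
  refine forall_congr' fun j => forall_congr' fun c => ?_
  rw [over_iff h2 h3]
  exact ⟨fun h a b => h b a, fun h a b => h b a⟩

/-- **Galois invariants over the ground field, all powers and all systems of classes.** -/
theorem inv_gen [IsAlgClosed W.K] [DecidableEq ι] {G : GaloisData W Γ} (hcyc : FixesCycles G)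
    {X : ι → 𝒱.Obj} (Z : 𝒱.Obj) (hX : ∀ i, OddMiddle W (X i)) (hG : BigFamily G X) :
    ∃ B : Finset ι, GenBound W X Z B ∧ (∀ i ∈ B, ¬MonApart G (X i) Z) ∧
      ∀ (𝒬 : ClassSystem W) (n m : ℕ) (V : Set (W.H (powN Z n))), InDegree V m →
        ∀ L : List ι, InvIn G 𝒬 X V L ↔
          ∀ L' : List ι, L'.Sublist L → SmallDim W X (powN Z n) B L' → InvIn G 𝒬 X V L' := by
  obtain ⟨B, h1, h2, -, -, h3⟩ := gen_gal G Z (bigFamily_ad G hX hG)
  refine ⟨B, h1, h2, fun 𝒬 n m V hV L => ?_⟩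
  obtain ⟨U, hU, rfl⟩ := hV
  obtain ⟨F, hF1, hF2, hF3⟩ := exists_proj hU
  have h4 := h3 n (ofSys (gcls_exact hcyc).sys) (ofSys 𝒬) F L
    fun Y E y hy => tateComp_tate G (by
      have h5 := hy.1
      rw [GCls.sys_C] at h5
      exact Submodule.span_mono (fun c hc => by
        obtain ⟨j, hj⟩ := hc
        exact ⟨j, isExact_tate hj⟩) h5)
  rw [invIn_iff hcyc 𝒬 hF1 hF2 hF3, h4]
  exact forall_congr' fun L' => forall_congr' fun _ => forall_congr' fun _ =>
    (invIn_iff hcyc 𝒬 hF1 hF2 hF3 L').symm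

end Pool.Agent.X227.UP
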