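import Pool.Agent.X227.UP.Alg

/-!
# The dimension of the space of skew operators
-/

set_option linter.unusedSectionVars false

namespace Pool.Agent.X227.UP

open Module Finset Function Pool.Agent.Y132.EP

variable {K : Type} [Field K] {T : Type} [AddCommGroup T] [Module K T] [FiniteDimensional K T]

theorem choose_le_sk {B : T →ₗ[K] T →ₗ[K] K} (halt : ∀ x, B x x = 0)
    (hnd : ∀ u, (∀ t, B u t = 0) → u = 0) :
    (finrank K T + 1).choose 2 ≤ finrank K (sk B) := by
  classical
  let e := finBasis K T
  have hanti : ∀ x y, B x y = -B y x := by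
    intro x y
    have h1 := halt (x + y)
    simp only [map_add, LinearMap.add_apply, halt] at h1
    linear_combination h1
  let Φ : (Sym2 (Fin (finrank K T)) → K) →ₗ[K] (T →ₗ[K] T) :=
    ∑ a, ∑ c, (LinearMap.toSpanSingleton K (T →ₗ[K] T)
      ((B (e a)).smulRight (e c))) ∘ₗ LinearMap.proj (s(a, c))
  have hΦ : ∀ l t, Φ l t = ∑ a, ∑ c, (l s(a, c) * B (e a) t) • e c := by
    intro l t
    simp only [Φ, LinearMap.sum_apply, LinearMap.comp_apply, LinearMap.proj_apply,
      LinearMap.toSpanSingleton_apply, LinearMap.smul_apply, LinearMap.smulRight_apply, smul_smul]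
  have hsk : ∀ l, Φ l ∈ sk B := by
    intro l x y
    rw [hΦ, hΦ]
    simp only [map_sum, LinearMap.sum_apply, map_smul, LinearMap.smul_apply, smul_eq_mul]
    rw [Finset.sum_comm (f := fun a c => l s(a, c) * B (e a) y * B x (e c)),
      ← Finset.sum_add_distrib]
    refine Finset.sum_eq_zero fun a _ => ?_
    rw [← Finset.sum_add_distrib]
    refine Finset.sum_eq_zero fun c _ => ?_
    rw [Sym2.eq_swap (a := c) (b := a), hanti x (e a)]
    ring
  have hinj : Function.Injective (Φ.codRestrict (sk B) hsk) := by
    refine (injective_iff_map_eq_zero _).2 fun l hl => ?_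
    have h1 : Φ l = 0 := congrArg Subtype.val hl
    have h2 : ∀ c, ∑ a, l s(a, c) • e a = 0 := by
      intro c
      apply hnd
      intro t
      have h3 := hΦ l t
      rw [h1, LinearMap.zero_apply, Finset.sum_comm] at h3
      have h4 := congrArg (fun v => e.repr v c) h3
      simp only [map_zero, map_sum, map_smul, Finsupp.coe_zero, Pi.zero_apply,
        Finsupp.coe_finsetSum, Finset.sum_apply, Finsupp.smul_apply, Basis.repr_self,
        smul_eq_mul] at h4
      simp only [map_sum, map_smul, LinearMap.sum_apply, LinearMap.smul_apply, smul_eq_mul]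
      rw [Finset.sum_eq_single c (fun c' _ hc' => Finset.sum_eq_zero fun a _ => by
        rw [Finsupp.single_eq_of_ne hc'.symm, mul_zero]) (fun h => absurd (Finset.mem_univ c) h)] at h4
      rw [h4]
      refine Finset.sum_congr rfl fun a _ => ?_
      rw [Finsupp.single_eq_same, mul_one]
    funext s
    induction s using Sym2.ind with
    | _ a c =>
      have h5 := congrArg (fun v => e.repr v a) (h2 c)
      simp only [map_zero, map_sum, map_smul, Finsupp.coe_zero, Pi.zero_apply,
        Finsupp.coe_finsetSum, Finset.sum_apply, Finsupp.smul_apply, Basis.repr_self,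
        smul_eq_mul] at h5
      rw [Finset.sum_eq_single a (fun a' _ ha' => by
        rw [Finsupp.single_eq_of_ne ha'.symm, mul_zero]) (fun h => absurd (Finset.mem_univ a) h),
        Finsupp.single_eq_same, mul_one] at h5
      exact h5
  have h := LinearMap.finrank_le_finrank_of_injective hinj
  rw [Module.finrank_pi, Sym2.card, Fintype.card_fin] at h
  exact h

end Pool.Agent.X227.UP
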