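import Pool.Agent.Y132.AH.GDefs
import Pool.Agent.X227.NP.Defs

/-!
# Separation by the eigenvalues of one element, operators on products: definitions
-/

open CategoryTheory AlgebraicGeometry

universe u

namespace Pool.Agent.X227.UP

open Pool.Agent.H914 Pool.Agent.H914.VarClass Pool.Agent.H914.VarClass.Obj
  Pool.Agent.H914.WeilCohomology Pool.Agent.Y132.AH Pool.Agent.X227.NP

section Alg

variable {K A B Γ : Type} [Field K] [Ring A] [Algebra K A] [Ring B] [Algebra K B] [Group Γ]

/-- `c` is an eigenvalue of `g` on the subspace `U`. -/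
def Eigen (ρ : Γ →* (A ≃ₐ[K] A)) (g : Γ) (U : Submodule K A) (c : K) : Prop :=
  ∃ x ∈ U, x ≠ 0 ∧ ρ g x = c • x

/-- For some element `g` of the group with two eigenvalues `a` and `b` on `T`: `B` is generated by
stable subspaces on which `a b / χ(g) ^ n` is not the quotient of two eigenvalues of `g`. -/
def EigenApart {χ : Γ →* Kˣ} {gr : ℕ → Submodule K A} {n : ℕ} {tr : A →ₗ[K] K} {C : ℕ → Set A}
    {gr' : ℕ → Submodule K B} {n' : ℕ} {tr' : B →ₗ[K] K} {C' : ℕ → Set B}
    (G : GalAlg Γ χ gr n tr C) (T : Submodule K A) (G' : GalAlg Γ χ gr' n' tr' C') : Prop :=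
  ∃ (g : Γ) (a b lam : K), (χ g : K) ^ n * lam = a * b ∧ Eigen G.act g T a ∧
    Eigen G.act g T b ∧ ∃ 𝒰 : Set (Submodule K B), StabGen (fun γ x => G'.act γ x) 𝒰 ∧
      ∀ U ∈ 𝒰, ∀ β, Eigen G'.act g U (lam * β) → ¬Eigen G'.act g U β

/-- The operator `y ↦ s (e * p y)`. -/
def corrFun {C : Type} [Ring C] [Algebra K C] (p : A →ₐ[K] C) (s : C →ₗ[K] A) (e : C) (y : A) : A :=
  s (e * p y)

end Alg

variable {k : Type u} [Field k] {𝒱 : VarClass k} {ops : CycleOps 𝒱}
  {W : WeilCohomology.{u, 0} ops} {Γ : Type} [Group Γ]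

/-- `X` is separated from `Z` by one element of the group. -/
def Apart (G : GaloisData W Γ) (X Z : 𝒱.Obj) : Prop :=
  EigenApart (G.on X) (transcendental W X) (G.on Z)

/-- The operator of the correspondence `Δ × e` on the cohomology of the product `P × Z` over the
list: `y ↦ (id × pr_2)_* (pr^* e * (id × pr_1)^* y)`, where `pr : P × Z × Z → Z × Z`. -/
noncomputable def timesE {ι : Type} (X : ι → 𝒱.Obj) {Z : 𝒱.Obj} (e : W.H (Z.prod Z)) (L : List ι) :
    W.H (prodList X Z L) → W.H (prodList X Z L) :=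
  corrFun (W.map (listMap X (fst Z Z) L)) (W.push (listMap X (snd Z Z) L))
    (W.map (listSnd X (Z.prod Z) L) e)

end Pool.Agent.X227.UP
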