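import Pool.Agent.X227.UP.GenDefs

/-!
# Galois invariants in a subspace and any system of classes: definitions
-/

open CategoryTheory AlgebraicGeometry

universe u

namespace Pool.Agent.X227.UP

open Pool.Agent.H914 Pool.Agent.H914.VarClass Pool.Agent.H914.VarClass.Obj
  Pool.Agent.H914.WeilCohomology Pool.Agent.Y132.AH

section Alg

variable {K A B Γ : Type} [Field K] [Ring A] [Algebra K A] [Ring B] [Algebra K B] [Group Γ]

/-- `c` is an eigenvalue of `g` on the subspace `U`. -/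
def EigAt (ρ : Γ →* (A ≃ₐ[K] A)) (g : Γ) (U : Submodule K A) (c : K) : Prop :=
  ∃ x ∈ U, x ≠ 0 ∧ ρ g x = c • x

/-- For some element `g` of the group with two eigenvalues `a` and `b` on `T`: `B` is generated by
stable subspaces on which `a b / χ(g) ^ n` is not the quotient of two eigenvalues of `g`. -/
def EigSep {χ : Γ →* Kˣ} {gr : ℕ → Submodule K A} {n : ℕ} {tr : A →ₗ[K] K} {C : ℕ → Set A}
    {gr' : ℕ → Submodule K B} {n' : ℕ} {tr' : B →ₗ[K] K} {C' : ℕ → Set B}
    (G : GalAlg Γ χ gr n tr C) (T : Submodule K A) (G' : GalAlg Γ χ gr' n' tr' C') : Prop :=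
  ∃ (g : Γ) (a b lam : K), (χ g : K) ^ n * lam = a * b ∧ EigAt G.act g T a ∧
    EigAt G.act g T b ∧ ∃ 𝒰 : Set (Submodule K B), StabGen (fun γ x => G'.act γ x) 𝒰 ∧
      ∀ U ∈ 𝒰, ∀ β, EigAt G'.act g U (lam * β) → ¬EigAt G'.act g U β

/-- The elements of degree `2 j` of `V` on which the whole group acts by `χ ^ j` are in `M`, for all
`j`. -/
def InvSub {χ : Γ →* Kˣ} {gr : ℕ → Submodule K A} {n : ℕ} {tr : A →ₗ[K] K} {Z : ℕ → Set A}
    (G : GalAlg Γ χ gr n tr Z) (M V : Set A) : Prop :=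
  ∀ j, ∀ c ∈ V, c ∈ gr (2 * j) → (∀ g, G.act g c = (χ g : K) ^ j • c) → c ∈ M

/-- The whole group acts on the elements of `Z j` by `χ ^ j`. -/
def CycFix {χ : Γ →* Kˣ} {gr : ℕ → Submodule K A} {n : ℕ} {tr : A →ₗ[K] K} {Z : ℕ → Set A}
    (G : GalAlg Γ χ gr n tr Z) : Prop :=
  ∀ j, ∀ c ∈ Z j, ∀ g, G.act g c = (χ g : K) ^ j • c

/-- `V` is a linear subspace of `gr m`. -/
def SubOf (gr : ℕ → Submodule K A) (m : ℕ) (V : Set A) : Prop :=
  ∃ U : Submodule K A, U ≤ gr m ∧ V = U

/-- The sums of the products `p a * q v` with `v ∈ V`. -/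
def prodSums {C : Type} [Ring C] [Algebra K C] (p : A →ₐ[K] C) (q : B →ₐ[K] C) (V : Set B) :
    Set C :=
  AddSubgroup.closure {c | ∃ a, ∃ v ∈ V, c = p a * q v}

/-- The set `C` contains the elements of the sets `Z j` and is closed under linear combinations and
products. -/
structure IsSubalg (Z : ℕ → Set A) (C : Set A) : Prop where
  alg : ∀ j, Z j ⊆ C
  add : ∀ a ∈ C, ∀ b ∈ C, a + b ∈ C
  smul : ∀ (r : K), ∀ a ∈ C, r • a ∈ C
  mul : ∀ a ∈ C, ∀ b ∈ C, a * b ∈ C

/-- The homomorphism `f` maps `C` to `C'`, and the linear map `g` maps `C'` to `C`. -/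
def Swaps (C : Set A) (C' : Set B) (f : A →ₐ[K] B) (g : B →ₗ[K] A) : Prop :=
  (∀ a ∈ C, f a ∈ C') ∧ ∀ b ∈ C', g b ∈ C

end Alg

variable {k : Type u} [Field k] {𝒱 : VarClass k} {ops : CycleOps 𝒱}

/-- A set of classes on every variety. -/
def Fam (W : WeilCohomology.{u, 0} ops) : Type (u + 1) := ∀ X : 𝒱.Obj, Set (W.H X)

variable {W : WeilCohomology.{u, 0} ops} {Γ : Type} [Group Γ]

/-- The classes `C X` contain the algebraic classes and are closed under linear combinations,
products, pull-backs and push-forwards. -/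
structure IsSys (C : Fam W) : Prop where
  sub : ∀ X, IsSubalg (K := W.K) (algClasses W X) (C X)
  swap : ∀ {X Y : 𝒱.Obj} (f : X ⟶ Y), Swaps (C Y) (C X) (W.map f) (W.push f)

/-- `X` is separated from `Z` by one element of the group. -/
def GalSep (G : GaloisData W Γ) (X Z : 𝒱.Obj) : Prop :=
  EigSep (G.on X) (transcendental W X) (G.on Z)

/-- The group fixes the classes of cycles, up to the Tate twist: the cycles are defined over the
ground field of which `Γ` is the Galois group. -/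
def CyclesFixed (G : GaloisData W Γ) : Prop := ∀ Y : 𝒱.Obj, CycFix (G.on Y)

/-- `V` is a linear subspace of `H^m(Z)`. -/
def SubIn {Z : 𝒱.Obj} (V : Set (W.H Z)) (m : ℕ) : Prop := SubOf (W.gr Z) m V

/-- The classes in `H(P) ⊗ V ⊆ H(P × Z)`, for a subspace `V` of `H(Z)` and the product `P` over the
list: the sums of the classes `pr_1^* a * pr_2^* v`. -/
noncomputable def tensorSet {ι : Type} (X : ι → 𝒱.Obj) {Z : 𝒱.Obj} (V : Set (W.H Z)) :
    (L : List ι) → Set (W.H (prodList X Z L))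
  | [] => V
  | i :: L => prodSums (W.map (fst (X i) (prodList X Z L))) (W.map (snd (X i) (prodList X Z L)))
      (tensorSet X V L)

/-- The classes of degree `2 j` in `H(P) ⊗ V`, `P` the product over the list, on which the whole group
acts by `χ ^ j`, are in `C`, for all `j`. -/
def InvariantsIn (G : GaloisData W Γ) (C : Fam W) {ι : Type} (X : ι → 𝒱.Obj) {Z : 𝒱.Obj}
    (V : Set (W.H Z)) (L : List ι) : Prop :=
  InvSub (G.on (prodList X Z L)) (C (prodList X Z L)) (tensorSet X V L)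

end Pool.Agent.X227.UP
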