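import Pool.Agent.X227.UP.ST
import Pool.Agent.X227.UP.SysDefs

/-!
# Galois invariants and any system of classes, with the slim definitions
-/

open CategoryTheory AlgebraicGeometry

universe u

namespace Pool.Agent.X227.UP

open Pool.Agent.H914 Pool.Agent.H914.VarClass Pool.Agent.H914.VarClass.Obj
  Pool.Agent.H914.WeilCohomology Pool.Agent.Y132.AH Pool.Agent.X227.MS Pool.Agent.H281R3.HT
  Pool.Agent.W552 Pool.Agent.TH125.Gal Pool.Agent.Y132.AF Pool.Agent.X227.MM Pool.Agent.X227.NP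

variable {k : Type u} [Field k] {𝒱 : VarClass k} {ops : CycleOps 𝒱} {ι : Type}
  {W : WeilCohomology.{u, 0} ops} {Γ : Type} [Group Γ]

/-- The system of subspaces. -/
def toSys {C : Fam W} (hC : IsSys C) : ClassSystem W where
  C X :=
    { carrier := C X
      add_mem' := fun ha hb => (hC.sub X).add _ ha _ hb
      zero_mem' := by
        have h1 := (hC.sub X).alg 0 ⟨X.V.fundCycle, X.V.fundCycle_mem, rfl⟩
        have h2 := (hC.sub X).smul 0 _ h1
        rwa [zero_smul] at h2
      smul_mem' := fun r a ha => (hC.sub X).smul r a ha }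
  alg_le X := Submodule.span_le.2 (Set.iUnion_subset fun j c hc => (hC.sub X).alg j hc)
  mul_mem {X} {_ _} ha hb := (hC.sub X).mul _ ha _ hb
  map_mem {_ _} f {_} hb := (hC.swap f).1 _ hb
  push_mem {_ _} f {_} ha := (hC.swap f).2 _ ha

theorem tensorSet_eq (X : ι → 𝒱.Obj) {Z : 𝒱.Obj} (V : Set (W.H Z)) (L : List ι) :
    tensorSet X V L = overSet X V L := by
  induction L with
  | nil => rfl
  | cons i L ih =>
    change crossSums _ _ (tensorSet X V L) = crossSums _ _ (overSet X V L)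
    rw [ih]

theorem invariantsIn_iff (G : GaloisData W Γ) {C : Fam W} (hC : IsSys C) (X : ι → 𝒱.Obj)
    {Z : 𝒱.Obj} (V : Set (W.H Z)) (L : List ι) :
    InvariantsIn G C X V L ↔ InvIn G (toSys hC) X V L := by
  unfold InvariantsIn InvIn InvSub ExactIn ExactCls
  rw [tensorSet_eq]
  exact ⟨fun h j c hc h1 => h j c hc h1.1 h1.2, fun h j c hc h1 h2 => h j c hc ⟨h1, h2⟩⟩

theorem inv_slim [IsAlgClosed W.K] [DecidableEq ι] {G : GaloisData W Γ} (hcyc : CyclesFixed G)
    {X : ι → 𝒱.Obj} (Z : 𝒱.Obj) (hX : ∀ i, OddMiddle W (X i)) (hG : BigFamily G X) :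
    ∃ B : Finset ι, GenBound W X Z B ∧ (∀ i ∈ B, ¬GalSep G (X i) Z) ∧
      ∀ C : Fam W, IsSys C → ∀ (n m : ℕ) (V : Set (W.H (powN Z n))), SubIn V m →
        ∀ L : List ι, InvariantsIn G C X V L ↔
          ∀ L' : List ι, L'.Sublist L → SmallDim W X (powN Z n) B L' →
            InvariantsIn G C X V L' := by
  obtain ⟨B, h1, h2, h3⟩ := inv_gen (G := G) hcyc Z hX hG
  refine ⟨B, h1, h2, fun C hC n m V hV L => ?_⟩
  rw [invariantsIn_iff G hC, h3 (toSys hC) n m V hV L]
  exact forall_congr' fun L' => forall_congr' fun _ => forall_congr' fun _ =>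
    (invariantsIn_iff G hC X V L').symm

end Pool.Agent.X227.UP
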