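import Pool.Agent.X227.UP.Gen
import Pool.Agent.X227.NP.HV

/-!
# All powers at once: the variational Hodge conjecture
-/

open CategoryTheory AlgebraicGeometry

universe u

namespace Pool.Agent.X227.UP

open Pool.Agent.H914 Pool.Agent.H914.VarClass Pool.Agent.H914.VarClass.Obj
  Pool.Agent.H914.WeilCohomology Pool.Agent.Y132.AH Pool.Agent.X227.MS Pool.Agent.H281R3.HT
  Pool.Agent.W552 Pool.Agent.TH125.Gal Pool.Agent.Y132.AF Pool.Agent.X227.MM Pool.Agent.X227.NP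

variable {k : Type u} [Field k] {𝒱 : VarClass k} {ops : CycleOps 𝒱} {ι : Type}
  {W : WeilCohomology.{u, 0} ops} (Ψ : HodgeData W)

theorem isPair_vhc [IsAlgClosed W.K] {Ψ : HodgeData W} (D : Special Ψ) :
    IsPair (ofSys (gcls_sp D).sys) (ofSys gcls_alg.sys) (VHC D) where
  iff := vhc_iff D
  iso := vhc_iso D

theorem vhc_gen [IsAlgClosed W.K] [DecidableEq ι] {X : ι → 𝒱.Obj} (Z : 𝒱.Obj)
    (hX : SpFamily Ψ X) :
    ∃ B : Finset ι, GenBound W X Z B ∧ (∀ i ∈ B, ¬TypeSep Ψ (X i) Z) ∧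
      ∀ D : Special Ψ, (∀ (n : ℕ) (L : List ι), VHC D (prodList X (powN Z n) L) ↔
        ∀ L' : List ι, L'.Sublist L → SmallDim W X (powN Z n) B L' →
          VHC D (prodList X (powN Z n) L')) ∧
        ∀ L : List ι, (∀ n, VHC D (powN (prodList X Z L) n)) ↔
          ∀ n, VHC D (powN (prodList X Z (L.filter (· ∈ B))) n) := by
  obtain ⟨B, h1, h2, h3, -⟩ := gen_hodge Ψ Z hX
  refine ⟨B, h1, h2, fun D => ?_⟩
  have h4 := h3 (isPair_vhc D) fun Y F y hy =>
    hodgeComp_span Ψ (Submodule.span_mono (fun c hc => by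
      obtain ⟨j, hj⟩ := hc
      exact ⟨j, hj.2⟩) hy.1)
  exact ⟨h4.small, h4.only⟩

end Pool.Agent.X227.UP
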